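import Mathlib

/-!
# A Bezout-type bound for nondegenerate zeros, in box-degree form

If `P l`, `l ∈ σ`, are real polynomials in the variables `σ` and `z i`, `i ∈ N`, are distinct
common zeros with nonsingular Jacobian, then for all weights `s, A : σ → ℕ` with
`∑ l, s l * degreeOf l' (P l) ≤ A l'` one has `|N| * ∏ s l ≤ ∏ (A l + 1)`.
-/

namespace Pool.Agent.Helper67

open MvPolynomial

section line

variable {σ : Type*}

/-- Substitution of the line `z + T y` into a polynomial. -/
noncomputable def lineHom (z y : σ → ℝ) : MvPolynomial σ ℝ →ₐ[ℝ] Polynomial ℝ :=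
  aeval (fun l => Polynomial.C (z l) + Polynomial.C (y l) * Polynomial.X)

theorem lineHom_eval_zero (z y : σ → ℝ) (p : MvPolynomial σ ℝ) :
    (lineHom z y p).eval 0 = eval z p := by
  induction p using MvPolynomial.induction_on with
  | C a => simp [lineHom, Polynomial.algebraMap_eq]
  | add p q hp hq => simp [hp, hq]
  | mul_X p l hp => rw [map_mul, Polynomial.eval_mul, hp]; simp [lineHom]

theorem lineHom_deriv_zero [Fintype σ] (z y : σ → ℝ) (p : MvPolynomial σ ℝ) :
    (Polynomial.derivative (lineHom z y p)).eval 0 = ∑ l, y l * eval z (pderiv l p) := by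
  classical
  induction p using MvPolynomial.induction_on with
  | C a => simp [lineHom, Polynomial.algebraMap_eq]
  | add p q hp hq =>
    simp only [map_add, Polynomial.eval_add, hp, hq, mul_add, Finset.sum_add_distrib]
  | mul_X p l hp =>
    rw [map_mul, Polynomial.derivative_mul, Polynomial.eval_add, Polynomial.eval_mul, hp,
      Polynomial.eval_mul, lineHom_eval_zero, lineHom_eval_zero]
    have h1 : (Polynomial.derivative (lineHom z y (X l))).eval 0 = y l := by simp [lineHom]
    rw [h1]
    have h2 : ∀ k, y k * eval z (pderiv k (p * X l)) =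
        y k * eval z (pderiv k p) * z l + (if k = l then y k * eval z p else 0) := by
      intro k
      rw [pderiv_mul, pderiv_X]
      by_cases hk : k = l
      · subst hk
        simp
        ring
      · simp [hk, Ne.symm hk]
        ring
    rw [Finset.sum_congr rfl fun k _ => h2 k, Finset.sum_add_distrib, ← Finset.sum_mul]
    simp
    ring

end line

section indep

variable {σ : Type*} [Fintype σ] {N : Type*} [Fintype N] [DecidableEq N]

theorem indep_aux (P : σ → MvPolynomial σ ℝ) (z : N → σ → ℝ) (b : N → MvPolynomial σ ℝ)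
    (hz : ∀ i l, eval (z i) (P l) = 0)
    (hJ : ∀ i (y : σ → ℝ), (∀ l, ∑ l', y l' * eval (z i) (pderiv l' (P l)) = 0) → y = 0)
    (hb : ∀ i j, eval (z i) (b j) = if i = j then 1 else 0)
    (c : N → (σ →₀ ℕ) → ℝ) (S : Finset (σ →₀ ℕ))
    (h : ∑ α ∈ S, ∑ j, C (c j α) * b j * ∏ l, P l ^ α l = 0) :
    ∀ t : ℕ, ∀ α ∈ S, ∑ l, α l = t → ∀ j, c j α = 0 := by
  classical
  intro t
  induction t using Nat.strong_induction_on with
  | _ t ih =>
  intro α₀ hα₀ ht₀ i
  -- the leading form
  let Q : MvPolynomial σ ℝ := ∑ α ∈ S.filter (fun α => ∑ l, α l = t), monomial α (c i α)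
  have hQ : ∀ y : σ → ℝ,
      eval (fun l => ∑ l', y l' * eval (z i) (pderiv l' (P l))) Q = 0 := by
    intro y
    have hroot : ∀ l, ∃ q : Polynomial ℝ, lineHom (z i) y (P l) = Polynomial.X * q := by
      intro l
      have : Polynomial.X ∣ lineHom (z i) y (P l) := by
        rw [Polynomial.X_dvd_iff, Polynomial.coeff_zero_eq_eval_zero, lineHom_eval_zero, hz]
      exact this
    choose q hq using hroot
    have hq0 : ∀ l, (q l).eval 0 = ∑ l', y l' * eval (z i) (pderiv l' (P l)) := by
      intro l
      rw [← lineHom_deriv_zero, hq, Polynomial.derivative_mul]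
      simp
    let R : (σ →₀ ℕ) → Polynomial ℝ := fun α =>
      ∑ j, Polynomial.C (c j α) * lineHom (z i) y (b j) * ∏ l, q l ^ α l
    have hsum : ∑ α ∈ S, Polynomial.X ^ (∑ l, α l) * R α = 0 := by
      have h1 := congrArg (lineHom (z i) y) h
      rw [map_sum, map_zero] at h1
      rw [← h1]
      refine Finset.sum_congr rfl fun α _ => ?_
      rw [map_sum, Finset.mul_sum]
      refine Finset.sum_congr rfl fun j _ => ?_
      rw [map_mul, map_mul, map_prod]
      have h2 : lineHom (z i) y (C (c j α)) = Polynomial.C (c j α) := by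
        simp [lineHom, Polynomial.algebraMap_eq]
      have h3 : ∏ l, lineHom (z i) y (P l ^ α l) =
          Polynomial.X ^ (∑ l, α l) * ∏ l, q l ^ α l := by
        rw [← Finset.prod_pow_eq_pow_sum, ← Finset.prod_mul_distrib]
        refine Finset.prod_congr rfl fun l _ => ?_
        rw [map_pow, hq, mul_pow]
      rw [h2, h3]
      ring
    have hfac : ∑ α ∈ S, Polynomial.X ^ (∑ l, α l) * R α =
        Polynomial.X ^ t * ∑ α ∈ S.filter (fun α => t ≤ ∑ l, α l),
          Polynomial.X ^ (∑ l, α l - t) * R α := by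
      rw [Finset.mul_sum, Finset.sum_filter]
      refine Finset.sum_congr rfl fun α hα => ?_
      by_cases hle : t ≤ ∑ l, α l
      · rw [if_pos hle, ← mul_assoc, ← pow_add]
        congr 2
        omega
      · rw [if_neg hle]
        have : R α = 0 := by
          refine Finset.sum_eq_zero fun j _ => ?_
          rw [ih _ (not_le.1 hle) α hα rfl j]
          simp
        rw [this, mul_zero]
    rw [hfac] at hsum
    have h4 : ∑ α ∈ S.filter (fun α => t ≤ ∑ l, α l),
          Polynomial.X ^ (∑ l, α l - t) * R α = 0 := by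
      rcases mul_eq_zero.1 hsum with h5 | h5
      · exact absurd h5 (pow_ne_zero _ Polynomial.X_ne_zero)
      · exact h5
    have h5 := congrArg (Polynomial.eval 0) h4
    rw [Polynomial.eval_finsetSum, Polynomial.eval_zero] at h5
    have hR0 : ∀ α, (R α).eval 0 = c i α * ∏ l, (q l).eval 0 ^ α l := by
      intro α
      simp only [R, Polynomial.eval_finsetSum, Polynomial.eval_mul, Polynomial.eval_C,
        Polynomial.eval_prod, Polynomial.eval_pow, lineHom_eval_zero, hb]
      rw [Finset.sum_eq_single i]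
      · simp
      · intro j _ hj
        rw [if_neg (Ne.symm hj)]
        simp
      · simp
    have h6 : eval (fun l => ∑ l', y l' * eval (z i) (pderiv l' (P l))) Q =
        ∑ α ∈ S.filter (fun α => ∑ l, α l = t), (R α).eval 0 := by
      simp only [Q, map_sum]
      refine Finset.sum_congr rfl fun α _ => ?_
      rw [eval_monomial, hR0, Finsupp.prod_fintype _ _ (by simp)]
      simp only [hq0]
    rw [h6]
    refine Eq.trans ?_ h5
    rw [Finset.sum_filter, Finset.sum_filter]
    refine Finset.sum_congr rfl fun α _ => ?_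
    by_cases h7 : ∑ l, α l = t
    · rw [if_pos h7, if_pos h7.ge]
      simp [h7]
    · rw [if_neg h7]
      by_cases h8 : t ≤ ∑ l, α l
      · rw [if_pos h8]
        have : ∑ l, α l - t ≠ 0 := by omega
        simp [this]
      · rw [if_neg h8]
  -- surjectivity of the Jacobian
  let J : (σ → ℝ) →ₗ[ℝ] (σ → ℝ) :=
    { toFun := fun y l => ∑ l', y l' * eval (z i) (pderiv l' (P l))
      map_add' := by
        intro y y'
        funext l
        simp [add_mul, Finset.sum_add_distrib]
      map_smul' := by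
        intro r y
        funext l
        simp [mul_assoc, Finset.mul_sum] }
  have hJinj : Function.Injective J := by
    rw [← LinearMap.ker_eq_bot, LinearMap.ker_eq_bot']
    intro y hy
    exact hJ i y fun l => congrFun hy l
  have hJsurj : Function.Surjective J := LinearMap.injective_iff_surjective.1 hJinj
  have hQ0 : Q = 0 := by
    apply MvPolynomial.funext
    intro w
    obtain ⟨y, rfl⟩ := hJsurj w
    rw [map_zero]
    exact hQ y
  have h9 : coeff α₀ Q = c i α₀ := by
    simp only [Q, coeff_sum, coeff_monomial]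
    rw [Finset.sum_ite_eq' (S.filter (fun α => ∑ l, α l = t)) α₀ (fun α => c i α)]
    rw [if_pos (Finset.mem_filter.2 ⟨hα₀, ht₀⟩)]
  rw [← h9, hQ0, coeff_zero]

/-- Interpolation polynomials. -/
theorem exists_interp (z : N → σ → ℝ) (hinj : Function.Injective z) :
    ∃ b : N → MvPolynomial σ ℝ, ∀ i j, eval (z i) (b j) = if i = j then 1 else 0 := by
  classical
  have h1 : ∀ i j : N, i ≠ j → ∃ l, z i l ≠ z j l := by
    intro i j hij
    by_contra hcon
    push Not at hcon
    exact hij (hinj (funext hcon))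
  have h2 : ∀ i j : N, ∃ p : MvPolynomial σ ℝ, i ≠ j → (eval (z i) p = 0 ∧ eval (z j) p = 1) := by
    intro i j
    by_cases hij : i = j
    · exact ⟨0, fun h => absurd hij h⟩
    · obtain ⟨l, hl⟩ := h1 i j hij
      refine ⟨C (z j l - z i l)⁻¹ * (X l - C (z i l)), fun _ => ⟨by simp, ?_⟩⟩
      have : z j l - z i l ≠ 0 := sub_ne_zero.2 hl.symm
      simp [this]
  choose p hp using h2
  refine ⟨fun j => ∏ i ∈ Finset.univ.erase j, p i j, ?_⟩
  intro i j
  rw [map_prod]
  by_cases hij : i = j
  · subst hij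
    rw [if_pos rfl]
    refine Finset.prod_eq_one fun k hk => ?_
    exact (hp k i (Finset.ne_of_mem_erase hk)).2
  · rw [if_neg hij]
    exact Finset.prod_eq_zero (Finset.mem_erase.2 ⟨hij, Finset.mem_univ i⟩) (hp i j hij).1

theorem card_Iic_finsupp [DecidableEq σ] (A : σ →₀ ℕ) :
    (Finset.Iic A).card = ∏ l, (A l + 1) := by
  rw [Finsupp.card_Iic]
  have h : ∀ l, (Finset.Iic (A l)).card = A l + 1 := fun l => by simp
  simp only [h]
  refine Finset.prod_subset (Finset.subset_univ _) ?_
  intro l _ hl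
  simp [Finsupp.notMem_support_iff.1 hl]

/-- **Box-degree Bezout bound** for nondegenerate zeros. -/
theorem card_zeros_le [DecidableEq σ] (P : σ → MvPolynomial σ ℝ) (z : N → σ → ℝ) (hinj : Function.Injective z)
    (hz : ∀ i l, eval (z i) (P l) = 0)
    (hJ : ∀ i (y : σ → ℝ), (∀ l, ∑ l', y l' * eval (z i) (pderiv l' (P l)) = 0) → y = 0)
    (s A : σ → ℕ) (hA : ∀ l', ∑ l, s l * degreeOf l' (P l) ≤ A l') :
    Fintype.card N * ∏ l, s l ≤ ∏ l, (A l + 1) := by
  obtain ⟨b, hb⟩ := exists_interp z hinj
  let B : ℕ := ∑ j, ∑ l, degreeOf l (b j)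
  have hB : ∀ j l, degreeOf l (b j) ≤ B := fun j l =>
    (Finset.single_le_sum (f := fun l => degreeOf l (b j)) (fun _ _ => Nat.zero_le _)
      (Finset.mem_univ l)).trans
    (Finset.single_le_sum (f := fun j => ∑ l, degreeOf l (b j)) (fun _ _ => Nat.zero_le _)
      (Finset.mem_univ j))
  let t : ℕ := B + 1
  let s' : σ →₀ ℕ := Finsupp.equivFunOnFinite.symm fun l => t * s l
  let A' : σ →₀ ℕ := Finsupp.equivFunOnFinite.symm fun l => B + t * A l
  let W : Submodule ℝ (MvPolynomial σ ℝ) := restrictSupport ℝ (↑(Finset.Iic A') : Set (σ →₀ ℕ))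
  have hWmem : ∀ p : MvPolynomial σ ℝ, (∀ l, degreeOf l p ≤ A' l) → p ∈ W := by
    intro p hp
    rw [mem_restrictSupport_iff]
    intro m hm
    rw [Finset.mem_coe, Finset.mem_Iic]
    intro l
    exact (degreeOf_le_iff.1 (hp l)) m hm
  have hmem : ∀ (j : N) (α : (Finset.Iic s' : Finset (σ →₀ ℕ))),
      b j * ∏ l, P l ^ (α : σ →₀ ℕ) l ∈ W := by
    intro j α
    apply hWmem
    intro l'
    have hα := Finset.mem_Iic.1 α.2
    calc degreeOf l' (b j * ∏ l, P l ^ (α : σ →₀ ℕ) l)
        ≤ degreeOf l' (b j) + degreeOf l' (∏ l, P l ^ (α : σ →₀ ℕ) l) := degreeOf_mul_le _ _ _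
      _ ≤ B + ∑ l, degreeOf l' (P l ^ (α : σ →₀ ℕ) l) :=
          Nat.add_le_add (hB j l') (degreeOf_prod_le _ _ _)
      _ ≤ B + ∑ l, t * (s l * degreeOf l' (P l)) := by
          refine Nat.add_le_add_left (Finset.sum_le_sum fun l _ => ?_) _
          refine (degreeOf_pow_le _ _ _).trans ?_
          rw [← mul_assoc]
          exact Nat.mul_le_mul_right _ (hα l)
      _ ≤ B + t * A l' := by
          rw [← Finset.mul_sum]
          exact Nat.add_le_add_left (Nat.mul_le_mul_left _ (hA l')) _
  let v : N × (Finset.Iic s' : Finset (σ →₀ ℕ)) → W := fun x =>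
    ⟨b x.1 * ∏ l, P l ^ (x.2 : σ →₀ ℕ) l, hmem x.1 x.2⟩
  have hv : LinearIndependent ℝ v := by
    rw [Fintype.linearIndependent_iff]
    intro g hg
    let c : N → (σ →₀ ℕ) → ℝ := fun j α =>
      if hα : α ∈ Finset.Iic s' then g (j, ⟨α, hα⟩) else 0
    have hsum : ∑ α ∈ Finset.Iic s', ∑ j, C (c j α) * b j * ∏ l, P l ^ α l = 0 := by
      have h1 := congrArg (Subtype.val : W → MvPolynomial σ ℝ) hg
      rw [Submodule.coe_sum] at h1
      simp only [Submodule.coe_smul, ZeroMemClass.coe_zero] at h1
      rw [Fintype.sum_prod_type, Finset.sum_comm] at h1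
      rw [← h1, ← Finset.sum_attach (Finset.Iic s')]
      refine Finset.sum_congr rfl fun α _ => Finset.sum_congr rfl fun j _ => ?_
      have h2 : c j α = g (j, α) := by
        simp only [c]
        rw [dif_pos α.2]
      rw [h2, smul_eq_C_mul, mul_assoc]
    have h3 := indep_aux P z b hz hJ hb c (Finset.Iic s') hsum
    rintro ⟨j, α⟩
    have h4 := h3 _ α.1 α.2 rfl j
    simp only [c] at h4
    rw [dif_pos α.2] at h4
    exact h4
  have hbasis : Module.Basis (Finset.Iic A' : Finset (σ →₀ ℕ)) ℝ W :=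
    basisRestrictSupport ℝ (↑(Finset.Iic A') : Set (σ →₀ ℕ))
  have : Module.Finite ℝ W := Module.Finite.of_basis hbasis
  have hcard := hv.fintype_card_le_finrank
  have hrank : Module.finrank ℝ W = ∏ l, (B + t * A l + 1) := by
    rw [Module.finrank_eq_card_basis hbasis, Fintype.card_coe, card_Iic_finsupp]
    rfl
  have hidx : Fintype.card (N × (Finset.Iic s' : Finset (σ →₀ ℕ))) =
      Fintype.card N * ∏ l, (t * s l + 1) := by
    rw [Fintype.card_prod, Fintype.card_coe, card_Iic_finsupp]
    rfl
  rw [hrank, hidx] at hcard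
  have h5 : ∏ l, (B + t * A l + 1) ≤ t ^ Fintype.card σ * ∏ l, (A l + 1) := by
    rw [← Finset.card_univ, ← Finset.prod_const, ← Finset.prod_mul_distrib]
    refine Finset.prod_le_prod' fun l _ => ?_
    show B + t * A l + 1 ≤ t * (A l + 1)
    rw [mul_add, mul_one]
    show B + t * A l + 1 ≤ t * A l + (B + 1)
    omega
  have h6 : t ^ Fintype.card σ * ∏ l, s l ≤ ∏ l, (t * s l + 1) := by
    rw [← Finset.card_univ, ← Finset.prod_const, ← Finset.prod_mul_distrib]
    exact Finset.prod_le_prod' fun l _ => Nat.le_succ _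
  have h7 : t ^ Fintype.card σ * (Fintype.card N * ∏ l, s l) ≤
      t ^ Fintype.card σ * ∏ l, (A l + 1) := by
    calc t ^ Fintype.card σ * (Fintype.card N * ∏ l, s l)
        = Fintype.card N * (t ^ Fintype.card σ * ∏ l, s l) := by ring
      _ ≤ Fintype.card N * ∏ l, (t * s l + 1) := Nat.mul_le_mul_left _ h6
      _ ≤ _ := hcard.trans h5
  exact Nat.le_of_mul_le_mul_left h7 (pow_pos (Nat.succ_pos B) _)

end indep

end Pool.Agent.Helper67
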