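import Mathlib

/-!
# Decoding a noncrossing coloured perfect matching by a sweep
-/

namespace Pool.Agent.Helper67

/-- A perfect matching `mate` on points of the plane with distinct abscissas, with a colouring of
its edges such that edges of the same colour are disjoint segments. -/
structure Conf (V : Type*) (k : ℕ) where
  x : V → ℝ
  y : V → ℝ
  mate : V → V
  col : V → Fin k
  xinj : Function.Injective x
  mate_mate : ∀ v, mate (mate v) = v
  mate_ne : ∀ v, mate v ≠ v
  col_mate : ∀ v, col (mate v) = col v
  disj : ∀ u w, col u = col w → w ≠ u → w ≠ mate u → ∀ ξ : ℝ,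
    x u ≤ ξ → ξ ≤ x (mate u) → x w ≤ ξ → ξ ≤ x (mate w) →
    y u + (ξ - x u) / (x (mate u) - x u) * (y (mate u) - y u) ≠
      y w + (ξ - x w) / (x (mate w) - x w) * (y (mate w) - y w)

namespace Conf

variable {V : Type*} {k : ℕ} (C : Conf V k)

/-- Height at abscissa `ξ` of the line through `u` and its mate. -/
noncomputable def h (u : V) (ξ : ℝ) : ℝ :=
  C.y u + (ξ - C.x u) / (C.x (C.mate u) - C.x u) * (C.y (C.mate u) - C.y u)

/-- Orientation of the triple `a, b, v`. -/
def ori (a b v : V) : ℝ :=
  (C.x b - C.x a) * (C.y v - C.y a) - (C.y b - C.y a) * (C.x v - C.x a)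

theorem x_mate_ne (u : V) : C.x (C.mate u) ≠ C.x u := fun h => C.mate_ne u (C.xinj h)

theorem h_self (u : V) : C.h u (C.x u) = C.y u := by simp [h]

theorem h_mate (u : V) : C.h u (C.x (C.mate u)) = C.y (C.mate u) := by
  have := sub_ne_zero.2 (C.x_mate_ne u)
  simp only [h]
  rw [div_self this]
  ring

theorem h_lt_iff (u v : V) (hu : C.x u < C.x (C.mate u)) :
    C.h u (C.x v) < C.y v ↔ 0 < C.ori u (C.mate u) v := by
  have h1 : 0 < C.x (C.mate u) - C.x u := sub_pos.2 hu
  have h2 : C.ori u (C.mate u) v = (C.x (C.mate u) - C.x u) * (C.y v - C.h u (C.x v)) := by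
    simp only [ori, h]
    field_simp
    ring
  rw [h2, mul_pos_iff_of_pos_left h1, sub_pos]

/-- Alive just before `v`. -/
def Alive (v u : V) : Prop :=
  C.col u = C.col v ∧ C.x u < C.x v ∧ C.x v ≤ C.x (C.mate u)

/-- Alive and below `v`. -/
def Below (v u : V) : Prop := C.Alive v u ∧ C.h u (C.x v) < C.y v

theorem h_ne {u w : V} (hc : C.col u = C.col w) (hne : w ≠ u) (hne' : w ≠ C.mate u) (ξ : ℝ)
    (h1 : C.x u ≤ ξ) (h2 : ξ ≤ C.x (C.mate u)) (h3 : C.x w ≤ ξ) (h4 : ξ ≤ C.x (C.mate w)) :
    C.h u ξ ≠ C.h w ξ := C.disj u w hc hne hne' ξ h1 h2 h3 h4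

theorem h_affine (u : V) (ξ η t : ℝ) :
    C.h u ((1 - t) * ξ + t * η) = (1 - t) * C.h u ξ + t * C.h u η := by
  simp only [h]
  ring

/-- The vertical order of two disjoint segments does not change. -/
theorem h_lt_iff_h_lt {u w : V} (hc : C.col u = C.col w) (hne : w ≠ u) (hne' : w ≠ C.mate u)
    {ξ η : ℝ} (hξη : ξ ≤ η)
    (h1 : C.x u ≤ ξ) (h2 : η ≤ C.x (C.mate u)) (h3 : C.x w ≤ ξ) (h4 : η ≤ C.x (C.mate w)) :
    C.h u ξ < C.h w ξ ↔ C.h u η < C.h w η := by
  -- if the signs were different, the affine function `h u - h w` would vanish in between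
  have key : ¬ (C.h u ξ - C.h w ξ) * (C.h u η - C.h w η) < 0 := by
    intro hneg
    have hA : C.h u ξ - C.h w ξ ≠ 0 := fun h => by rw [h, zero_mul] at hneg; exact lt_irrefl _ hneg
    let A := C.h u ξ - C.h w ξ
    let B := C.h u η - C.h w η
    have hAB : A * B < 0 := hneg
    have hABne : A - B ≠ 0 := by
      intro h
      have : A = B := by linarith
      rw [this] at hAB
      nlinarith [mul_self_nonneg B]
    let t := A / (A - B)
    have ht0 : 0 ≤ t := by
      rcases lt_or_gt_of_ne hA with hneg' | hpos
      · have hA' : A < 0 := hneg'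
        have hB : 0 < B := by nlinarith
        exact div_nonneg_of_nonpos hA'.le (by linarith)
      · have hA' : 0 < A := hpos
        have hB : B < 0 := by nlinarith
        exact div_nonneg hA'.le (by linarith)
    have ht1 : t ≤ 1 := by
      rcases lt_or_gt_of_ne hA with hneg' | hpos
      · have hA' : A < 0 := hneg'
        have hB : 0 < B := by nlinarith
        show A / (A - B) ≤ 1
        rw [div_le_one_of_neg (by linarith)]
        linarith
      · have hA' : 0 < A := hpos
        have hB : B < 0 := by nlinarith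
        show A / (A - B) ≤ 1
        rw [div_le_one (by linarith)]
        linarith
    have hmid : C.h u ((1 - t) * ξ + t * η) - C.h w ((1 - t) * ξ + t * η) = 0 := by
      rw [h_affine, h_affine]
      have : (1 - t) * A + t * B = 0 := by
        show (1 - A / (A - B)) * A + A / (A - B) * B = 0
        field_simp
        ring
      simp only [A, B] at this
      linarith
    have hle1 : ξ ≤ (1 - t) * ξ + t * η := by nlinarith
    have hle2 : (1 - t) * ξ + t * η ≤ η := by nlinarith
    exact C.h_ne hc hne hne' _ (h1.trans hle1) (hle2.trans h2) (h3.trans hle1) (hle2.trans h4)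
      (by linarith)
  have hne1 := C.h_ne hc hne hne' ξ h1 (hξη.trans h2) h3 (hξη.trans h4)
  have hne2 := C.h_ne hc hne hne' η (h1.trans hξη) h2 (h3.trans hξη) h4
  constructor
  · intro hlt
    by_contra hcon
    have : C.h w η < C.h u η := lt_of_le_of_ne (not_lt.1 hcon) hne2.symm
    exact key (mul_neg_of_neg_of_pos (by linarith) (by linarith))
  · intro hlt
    by_contra hcon
    have : C.h w ξ < C.h u ξ := lt_of_le_of_ne (not_lt.1 hcon) hne1.symm
    exact key (mul_neg_of_pos_of_neg (by linarith) (by linarith))

end Conf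

/-- Nested lower sets with the same separators and the same number of elements above all the
separators are equal. -/
theorem lower_eq {V : Type*} [DecidableEq V] (A B B' : Finset V) (g : V → ℝ)
    (hB : B ⊆ A) (hB' : B' ⊆ A)
    (hlow : ∀ u ∈ B, ∀ w ∈ A, g w < g u → w ∈ B) (hlow' : ∀ u ∈ B', ∀ w ∈ A, g w < g u → w ∈ B')
    (ginj : ∀ u ∈ A, ∀ w ∈ A, g u = g w → u = w)
    (Sep : Finset V) (hS : ∀ s ∈ Sep, s ∈ B ↔ s ∈ B')
    (hcard : (B.filter fun u => ∀ s ∈ Sep, s ∈ B → g s < g u).card =
      (B'.filter fun u => ∀ s ∈ Sep, s ∈ B' → g s < g u).card) : B = B' := by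
  -- the statement is symmetric; it is enough to treat nested sets
  have main : ∀ D D' : Finset V, D ⊆ A → D' ⊆ A → D ⊆ D' →
      (∀ u ∈ D, ∀ w ∈ A, g w < g u → w ∈ D) →
      (∀ s ∈ Sep, s ∈ D ↔ s ∈ D') →
      ((D.filter fun u => ∀ s ∈ Sep, s ∈ D → g s < g u).card =
        (D'.filter fun u => ∀ s ∈ Sep, s ∈ D' → g s < g u).card) → D = D' := by
    intro D D' hD hD' hsub hl hs hc
    by_contra hne
    obtain ⟨u, hu', hu⟩ : ∃ u ∈ D', u ∉ D := by
      by_contra hcon
      push Not at hcon
      exact hne (Finset.Subset.antisymm hsub hcon)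
    have hTsub : (D.filter fun u => ∀ s ∈ Sep, s ∈ D → g s < g u) ⊆
        (D'.filter fun u => ∀ s ∈ Sep, s ∈ D' → g s < g u) := by
      intro w hw
      rw [Finset.mem_filter] at hw ⊢
      exact ⟨hsub hw.1, fun s hsS hsD' => hw.2 s hsS ((hs s hsS).2 hsD')⟩
    have hTeq := Finset.eq_of_subset_of_card_le hTsub hc.ge
    have humem : u ∈ (D'.filter fun u => ∀ s ∈ Sep, s ∈ D' → g s < g u) := by
      rw [Finset.mem_filter]
      refine ⟨hu', fun s hsS hsD' => ?_⟩
      have hsD : s ∈ D := (hs s hsS).2 hsD'
      by_contra hcon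
      rcases lt_or_eq_of_le (not_lt.1 hcon) with h1 | h1
      · exact hu (hl s hsD u (hD' hu') h1)
      · have := ginj u (hD' hu') s (hD hsD) h1
        exact hu (this ▸ hsD)
    rw [← hTeq] at humem
    exact hu (Finset.mem_filter.1 humem).1
  by_cases hsub : B ⊆ B'
  · exact main B B' hB hB' hsub hlow hS hcard
  · obtain ⟨b, hb, hb'⟩ := Finset.not_subset.1 hsub
    have hsub' : B' ⊆ B := by
      intro c hc
      by_contra hcB
      rcases lt_trichotomy (g b) (g c) with h1 | h1 | h1
      · exact hb' (hlow' c hc b (hB hb) h1)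
      · have := ginj b (hB hb) c (hB' hc) h1
        exact hb' (this ▸ hc)
      · exact hcB (hlow b hb c (hB' hc) h1)
    exact (main B' B hB' hB hsub' hlow' (fun s hs => (hS s hs).symm) hcard.symm).symm

open Classical in
/-- **Decoding lemma.** -/
theorem Conf.mate_eq {V : Type*} [Fintype V] {k : ℕ} (C C' : Conf V k)
    (e1 : ∀ u v, C.x u < C.x v ↔ C'.x u < C'.x v)
    (e2 : ∀ v, C.col v = C'.col v)
    (e3 : ∀ v, C.x v < C.x (C.mate v) ↔ C'.x v < C'.x (C'.mate v))
    (Sep : Finset V)
    (e5 : ∀ s ∈ Sep, ∀ v, 0 < C.ori s (C.mate s) v ↔ 0 < C'.ori s (C'.mate s) v)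
    (e6 : ∀ v, (Finset.univ.filter fun u => C.Below v u ∧
        ∀ s ∈ Sep, C.Below v s → C.h s (C.x v) < C.h u (C.x v)).card =
      (Finset.univ.filter fun u => C'.Below v u ∧
        ∀ s ∈ Sep, C'.Below v s → C'.h s (C'.x v) < C'.h u (C'.x v)).card) :
    C.mate = C'.mate := by
  -- side information in the other direction
  have e3' : ∀ v, C.x (C.mate v) < C.x v ↔ C'.x (C'.mate v) < C'.x v := by
    intro v
    have h1 := C.x_mate_ne v
    have h2 := C'.x_mate_ne v
    constructor
    · intro h
      rcases lt_or_gt_of_ne h2 with h3 | h3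
      · exact h3
      · exact absurd ((e3 v).2 h3) (not_lt.2 h.le)
    · intro h
      rcases lt_or_gt_of_ne h1 with h3 | h3
      · exact h3
      · exact absurd ((e3 v).1 h3) (not_lt.2 h.le)
  -- main induction
  have main : ∀ n : ℕ, ∀ v, (Finset.univ.filter fun u => C.x u < C.x v).card = n →
      ((∀ u, C.Below v u ↔ C'.Below v u) ∧ (C.x (C.mate v) < C.x v → C.mate v = C'.mate v)) := by
    intro n
    induction n using Nat.strong_induction_on with
    | _ n ih =>
    intro v hv
    have IH : ∀ w, C.x w < C.x v →
        ((∀ u, C.Below w u ↔ C'.Below w u) ∧ (C.x (C.mate w) < C.x w → C.mate w = C'.mate w)) := by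
      intro w hw
      refine ih _ ?_ w rfl
      rw [← hv]
      apply Finset.card_lt_card
      rw [Finset.ssubset_iff_of_subset]
      · exact ⟨w, by simpa using hw, by simp⟩
      · intro u hu
        simp only [Finset.mem_filter, Finset.mem_univ, true_and] at hu ⊢
        exact hu.trans hw
    -- Step 1 : the same segments are alive
    have halive : ∀ u, C.Alive v u ↔ C'.Alive v u := by
      intro u
      constructor
      · rintro ⟨h1, h2, h3⟩
        refine ⟨by rw [← e2, ← e2]; exact h1, (e1 _ _).1 h2, ?_⟩
        by_contra hcon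
        have hcon := not_le.1 hcon
        have hw : C.x (C'.mate u) < C.x v := (e1 _ _).2 hcon
        have hleft' : C'.x u < C'.x (C'.mate u) := (e3 u).1 (h2.trans_le h3)
        have hright' : C'.x (C'.mate (C'.mate u)) < C'.x (C'.mate u) := by
          rw [C'.mate_mate]
          exact hleft'
        have hright : C.x (C.mate (C'.mate u)) < C.x (C'.mate u) := (e3' _).2 hright'
        have h4 := (IH _ hw).2 hright
        rw [C'.mate_mate] at h4
        have h5 : C.mate u = C'.mate u := by
          have h6 := C.mate_mate (C'.mate u)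
          rwa [h4] at h6
        rw [h5] at h3
        exact absurd hw (not_lt.2 h3)
      · rintro ⟨h1, h2, h3⟩
        refine ⟨by rw [e2, e2]; exact h1, (e1 _ _).2 h2, ?_⟩
        by_contra hcon
        have hw : C.x (C.mate u) < C.x v := not_le.1 hcon
        have hleft : C.x u < C.x (C.mate u) := (e3 u).2 (h2.trans_le h3)
        have hright : C.x (C.mate (C.mate u)) < C.x (C.mate u) := by
          rw [C.mate_mate]
          exact hleft
        have h4 := (IH _ hw).2 hright
        rw [C.mate_mate] at h4
        have h5 : C'.mate u = C.mate u := by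
          conv_lhs => rw [h4]
          rw [C'.mate_mate]
        rw [h5] at h3
        exact absurd ((e1 _ _).1 hw) (not_lt.2 h3)
    -- Step 2 : the same order on alive segments
    have hord1 : ∀ u w, C.Alive v u → C.Alive v w → C.x u < C.x w →
        ((C.h u (C.x v) < C.h w (C.x v)) ↔ C.Below w u) ∧
        ((C'.h u (C'.x v) < C'.h w (C'.x v)) ↔ C'.Below w u) := by
      intro u w hu hw huw
      have hu' := (halive u).1 hu
      have hw' := (halive w).1 hw
      have huw' := (e1 _ _).1 huw
      have aux : ∀ D : Conf V k, D.Alive v u → D.Alive v w → D.x u < D.x w →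
          ((D.h u (D.x v) < D.h w (D.x v)) ↔ D.Below w u) := by
        intro D hu hw huw
        have hne : w ≠ u := by
          rintro rfl
          exact lt_irrefl _ huw
        have hne' : w ≠ D.mate u := by
          rintro h
          have := hw.2.1
          rw [h] at this
          exact absurd hu.2.2 (not_le.2 this)
        have hcol : D.col u = D.col w := hu.1.trans hw.1.symm
        have h1 := D.h_lt_iff_h_lt hcol hne hne' (ξ := D.x w) (η := D.x v) hw.2.1.le huw.le
          hu.2.2 le_rfl hw.2.2
        rw [← h1, D.h_self]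
        constructor
        · intro h2
          exact ⟨⟨hcol, huw, (hw.2.1.le.trans hu.2.2)⟩, h2⟩
        · intro h2
          exact h2.2
      exact ⟨aux C hu hw huw, aux C' hu' hw' huw'⟩
    have hne_h : ∀ D : Conf V k, ∀ u w, D.Alive v u → D.Alive v w → u ≠ w →
        D.h u (D.x v) ≠ D.h w (D.x v) := by
      intro D u w hu hw hne
      have hne' : w ≠ D.mate u := by
        rintro h
        have := hw.2.1
        rw [h] at this
        exact absurd hu.2.2 (not_le.2 this)
      exact D.h_ne (hu.1.trans hw.1.symm) hne.symm hne' _ hu.2.1.le hu.2.2 hw.2.1.le hw.2.2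
    have hord : ∀ u w, C.Alive v u → C.Alive v w →
        ((C.h u (C.x v) < C.h w (C.x v)) ↔ (C'.h u (C'.x v) < C'.h w (C'.x v))) := by
      intro u w hu hw
      rcases lt_trichotomy (C.x u) (C.x w) with h1 | h1 | h1
      · have h2 := hord1 u w hu hw h1
        rw [h2.1, h2.2]
        exact (IH w hw.2.1).1 u
      · have := C.xinj h1
        subst this
        simp
      · have h2 := hord1 w u hw hu h1
        have h3 := (IH u hu.2.1).1 w
        have hne : u ≠ w := by
          rintro rfl
          exact lt_irrefl _ h1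
        have h4 := hne_h C u w hu hw hne
        have h5 := hne_h C' u w ((halive u).1 hu) ((halive w).1 hw) hne
        have h6 : (C.h w (C.x v) < C.h u (C.x v)) ↔ (C'.h w (C'.x v) < C'.h u (C'.x v)) := by
          rw [h2.1, h2.2]
          exact h3
        constructor
        · intro h7
          rcases lt_or_gt_of_ne h5 with h8 | h8
          · exact h8
          · exact absurd (h6.2 h8) (not_lt.2 h7.le)
        · intro h7
          rcases lt_or_gt_of_ne h4 with h8 | h8
          · exact h8
          · exact absurd (h6.1 h8) (not_lt.2 h7.le)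
    -- Step 4 : separators
    have hsep : ∀ s ∈ Sep, C.Below v s ↔ C'.Below v s := by
      intro s hs
      constructor
      · rintro ⟨h1, h2⟩
        have h1' := (halive s).1 h1
        refine ⟨h1', ?_⟩
        rw [C'.h_lt_iff _ _ (h1'.2.1.trans_le h1'.2.2), ← e5 s hs,
          ← C.h_lt_iff _ _ (h1.2.1.trans_le h1.2.2)]
        exact h2
      · rintro ⟨h1', h2⟩
        have h1 := (halive s).2 h1'
        refine ⟨h1, ?_⟩
        rw [C.h_lt_iff _ _ (h1.2.1.trans_le h1.2.2), e5 s hs,
          ← C'.h_lt_iff _ _ (h1'.2.1.trans_le h1'.2.2)]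
        exact h2
    -- Step 5 : the sets below `v` are the same
    have hbelow : (Finset.univ.filter fun u => C.Below v u) =
        (Finset.univ.filter fun u => C'.Below v u) := by
      refine lower_eq (Finset.univ.filter fun u => C.Alive v u) _ _ (fun u => C.h u (C.x v))
        ?_ ?_ ?_ ?_ ?_ Sep ?_ ?_
      · intro u hu
        simp only [Finset.mem_filter, Finset.mem_univ, true_and] at hu ⊢
        exact hu.1
      · intro u hu
        simp only [Finset.mem_filter, Finset.mem_univ, true_and] at hu ⊢
        exact (halive u).2 hu.1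
      · intro u hu w hw hlt
        simp only [Finset.mem_filter, Finset.mem_univ, true_and] at hu hw ⊢
        exact ⟨hw, hlt.trans hu.2⟩
      · intro u hu w hw hlt
        simp only [Finset.mem_filter, Finset.mem_univ, true_and] at hu hw ⊢
        have hw' := (halive w).1 hw
        refine ⟨hw', lt_trans ?_ hu.2⟩
        exact (hord w u hw ((halive u).2 hu.1)).1 hlt
      · intro u hu w hw heq
        simp only [Finset.mem_filter, Finset.mem_univ, true_and] at hu hw
        by_contra hne
        exact hne_h C u w hu hw hne heq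
      · intro s hs
        simp only [Finset.mem_filter, Finset.mem_univ, true_and]
        exact hsep s hs
      · have h1 := e6 v
        have h2 : (Finset.filter (fun u => ∀ s ∈ Sep,
            s ∈ Finset.univ.filter (fun u => C.Below v u) → C.h s (C.x v) < C.h u (C.x v))
            (Finset.univ.filter (fun u => C.Below v u))) =
            (Finset.univ.filter fun u => C.Below v u ∧
              ∀ s ∈ Sep, C.Below v s → C.h s (C.x v) < C.h u (C.x v)) := by
          ext u
          simp only [Finset.mem_filter, Finset.mem_univ, true_and]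
        have h3 : (Finset.filter (fun u => ∀ s ∈ Sep,
            s ∈ Finset.univ.filter (fun u => C'.Below v u) → C.h s (C.x v) < C.h u (C.x v))
            (Finset.univ.filter (fun u => C'.Below v u))) =
            (Finset.univ.filter fun u => C'.Below v u ∧
              ∀ s ∈ Sep, C'.Below v s → C'.h s (C'.x v) < C'.h u (C'.x v)) := by
          ext u
          simp only [Finset.mem_filter, Finset.mem_univ, true_and]
          constructor
          · rintro ⟨hu, h4⟩
            exact ⟨hu, fun s hs hsb => (hord s u ((halive s).2 hsb.1) ((halive u).2 hu.1)).1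
              (h4 s hs hsb)⟩
          · rintro ⟨hu, h4⟩
            exact ⟨hu, fun s hs hsb => (hord s u ((halive s).2 hsb.1) ((halive u).2 hu.1)).2
              (h4 s hs hsb)⟩
        rw [← h2, ← h3] at h1
        convert h1
    have hbelow' : ∀ u, C.Below v u ↔ C'.Below v u := by
      intro u
      have := Finset.ext_iff.1 hbelow u
      simpa only [Finset.mem_filter, Finset.mem_univ, true_and] using this
    refine ⟨hbelow', fun hright => ?_⟩
    -- Step 6 : the mate of a right endpoint
    by_contra hne
    have hp : C.Alive v (C.mate v) := ⟨C.col_mate v, hright, by rw [C.mate_mate]⟩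
    have hright' := (e3' v).1 hright
    have hp' : C'.Alive v (C'.mate v) := ⟨C'.col_mate v, hright', by rw [C'.mate_mate]⟩
    have hp'C := (halive _).2 hp'
    have hhp : C.h (C.mate v) (C.x v) = C.y v := by
      have := C.h_mate (C.mate v)
      rwa [C.mate_mate] at this
    have hhp' : C'.h (C'.mate v) (C'.x v) = C'.y v := by
      have := C'.h_mate (C'.mate v)
      rwa [C'.mate_mate] at this
    have h1 : ¬ C.Below v (C'.mate v) := by
      rw [hbelow']
      rintro ⟨-, h⟩
      rw [hhp'] at h
      exact lt_irrefl _ h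
    have h2 := hne_h C _ _ hp hp'C hne
    have h3 : C.h (C.mate v) (C.x v) < C.h (C'.mate v) (C.x v) := by
      rcases lt_or_gt_of_ne h2 with h4 | h4
      · exact h4
      · exact absurd ⟨hp'C, hhp ▸ h4⟩ h1
    have h4 := (hord _ _ hp hp'C).1 h3
    rw [hhp'] at h4
    have h5 : C'.Below v (C.mate v) := ⟨(halive _).1 hp, h4⟩
    rw [← hbelow'] at h5
    have h6 := h5.2
    rw [hhp] at h6
    exact lt_irrefl _ h6
  funext v
  rcases lt_or_gt_of_ne (C.x_mate_ne v) with h | h
  · exact (main _ v rfl).2 h
  · have h1 : C.x (C.mate (C.mate v)) < C.x (C.mate v) := by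
      rw [C.mate_mate]
      exact h
    have h2 := (main _ (C.mate v) rfl).2 h1
    rw [C.mate_mate] at h2
    have h3 := congrArg C'.mate h2
    rw [C'.mate_mate] at h3
    exact h3.symm

end Pool.Agent.Helper67
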