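import Mathlib
import Pool.Agent.Helper67.Decode

/-!
# Hitting sets, separators, ranks
-/

namespace Pool.Agent.Helper67

theorem exists_hitting {V : Type*} [Fintype V] [DecidableEq V] (D : V → Finset V)
    (Req : V → Prop) (K N0 : ℕ) (hK : ∀ v, Req v → K ≤ (D v).card)
    (hN : Fintype.card V * (Fintype.card V - K) ^ N0 < Fintype.card V ^ N0) :
    ∃ sep : Fin N0 → V, ∀ v, Req v → ∃ j, sep j ∈ D v := by
  classical
  by_contra hcon
  push Not at hcon
  have hsub : (Finset.univ : Finset (Fin N0 → V)) ⊆
      (Finset.univ.filter Req).biUnion fun v => Fintype.piFinset fun _ : Fin N0 => (D v)ᶜ := by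
    intro f _
    obtain ⟨v, hv, hf⟩ := hcon f
    rw [Finset.mem_biUnion]
    refine ⟨v, by simpa using hv, ?_⟩
    rw [Fintype.mem_piFinset]
    intro j
    rw [Finset.mem_compl]
    exact hf j
  have h1 := Finset.card_le_card hsub
  rw [Finset.card_univ, Fintype.card_fun, Fintype.card_fin] at h1
  have h2 : ((Finset.univ.filter Req).biUnion
      fun v => Fintype.piFinset fun _ : Fin N0 => (D v)ᶜ).card ≤
      Fintype.card V * (Fintype.card V - K) ^ N0 := by
    refine Finset.card_biUnion_le.trans ?_
    refine (Finset.sum_le_card_nsmul _ _ ((Fintype.card V - K) ^ N0) ?_).trans ?_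
    · intro v hv
      rw [Fintype.card_piFinset_const, Finset.card_compl]
      refine Nat.pow_le_pow_left ?_ _
      have := hK v (Finset.mem_filter.1 hv).2
      omega
    · rw [smul_eq_mul]
      exact Nat.mul_le_mul_right _ (Finset.card_le_univ _)
  omega

theorem exists_top {V : Type*} [DecidableEq V] (B : Finset V) (g : V → ℝ)
    (ginj : ∀ u ∈ B, ∀ w ∈ B, g u = g w → u = w) (K : ℕ) (hK : K ≤ B.card) :
    ∃ D ⊆ B, D.card = K ∧ ∀ u ∈ D, ∀ w ∈ B, g u ≤ g w → w ∈ D := by
  induction K with
  | zero => exact ⟨∅, by simp, by simp, by simp⟩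
  | succ K ih =>
    obtain ⟨D, hD, hcard, hup⟩ := ih (by omega)
    have hne : (B \ D).Nonempty := by
      rw [← Finset.card_pos, Finset.card_sdiff_of_subset hD]
      omega
    obtain ⟨m, hm, hmax⟩ := Finset.exists_max_image (B \ D) g hne
    rw [Finset.mem_sdiff] at hm
    refine ⟨insert m D, Finset.insert_subset hm.1 hD, ?_, ?_⟩
    · rw [Finset.card_insert_of_notMem hm.2, hcard]
    · intro u hu w hw huw
      rw [Finset.mem_insert] at hu ⊢
      by_cases hwD : w ∈ D
      · exact Or.inr hwD
      · rcases hu with rfl | hu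
        · left
          have h1 := hmax w (Finset.mem_sdiff.2 ⟨hw, hwD⟩)
          exact ginj w hw u hm.1 (le_antisymm h1 huw)
        · exact Or.inr (hup u hu w hw huw)

open Classical in
/-- The offset of `v`: the number of alive segments below `v` and above all separators
below `v`. -/
noncomputable def Conf.off {V : Type*} [Fintype V] {k : ℕ} (C : Conf V k) (Sep : Finset V)
    (v : V) : ℕ :=
  (Finset.univ.filter fun u => C.Below v u ∧
    ∀ s ∈ Sep, C.Below v s → C.h s (C.x v) < C.h u (C.x v)).card

theorem Conf.exists_sep {V : Type*} [Fintype V] [DecidableEq V] {k : ℕ} (C : Conf V k) (K N0 : ℕ)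
    (hKpos : 0 < K)
    (hN : Fintype.card V * (Fintype.card V - K) ^ N0 < Fintype.card V ^ N0) :
    ∃ sep : Fin N0 → V, ∀ v, C.off (Finset.univ.image sep) v < K := by
  classical
  let B : V → Finset V := fun v => Finset.univ.filter fun u => C.Below v u
  have ginj : ∀ v, ∀ u ∈ B v, ∀ w ∈ B v, C.h u (C.x v) = C.h w (C.x v) → u = w := by
    intro v u hu w hw heq
    simp only [B, Finset.mem_filter, Finset.mem_univ, true_and] at hu hw
    by_contra hne
    have hne' : w ≠ C.mate u := by
      rintro h
      have := hw.1.2.1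
      rw [h] at this
      exact absurd hu.1.2.2 (not_le.2 this)
    exact C.h_ne (hu.1.1.trans hw.1.1.symm) (Ne.symm hne) hne' _ hu.1.2.1.le hu.1.2.2 hw.1.2.1.le
      hw.1.2.2 heq
  have htop : ∀ v, ∃ D : Finset V, K ≤ (B v).card → (D ⊆ B v ∧ D.card = K ∧
      ∀ u ∈ D, ∀ w ∈ B v, C.h u (C.x v) ≤ C.h w (C.x v) → w ∈ D) := by
    intro v
    by_cases h : K ≤ (B v).card
    · obtain ⟨D, h1, h2, h3⟩ := exists_top (B v) (fun u => C.h u (C.x v)) (ginj v) K h
      exact ⟨D, fun _ => ⟨h1, h2, h3⟩⟩
    · exact ⟨∅, fun h' => absurd h' h⟩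
  choose D hD using htop
  obtain ⟨sep, hsep⟩ := exists_hitting D (fun v => K ≤ (B v).card) K N0
    (fun v hv => (hD v hv).2.1.ge) hN
  refine ⟨sep, fun v => ?_⟩
  by_contra hcon
  rw [not_lt] at hcon
  have hTB : (Finset.univ.filter fun u => C.Below v u ∧
      ∀ s ∈ Finset.univ.image sep, C.Below v s → C.h s (C.x v) < C.h u (C.x v)) ⊆ B v := by
    intro u hu
    simp only [B, Finset.mem_filter, Finset.mem_univ, true_and] at hu ⊢
    exact hu.1
  have hBcard : K ≤ (B v).card := by
    refine le_trans hcon ?_
    refine le_trans (le_of_eq ?_) (Finset.card_le_card hTB)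
    simp only [Conf.off]
    congr
  obtain ⟨j, hj⟩ := hsep v hBcard
  obtain ⟨h1, h2, h3⟩ := hD v hBcard
  have hTD : (Finset.univ.filter fun u => C.Below v u ∧
      ∀ s ∈ Finset.univ.image sep, C.Below v s → C.h s (C.x v) < C.h u (C.x v)) ⊆
      (D v).erase (sep j) := by
    intro u hu
    have huB := hTB hu
    simp only [Finset.mem_filter, Finset.mem_univ, true_and] at hu
    have hsB := h1 hj
    simp only [B, Finset.mem_filter, Finset.mem_univ, true_and] at hsB
    have hlt := hu.2 (sep j) (Finset.mem_image_of_mem _ (Finset.mem_univ _)) hsB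
    rw [Finset.mem_erase]
    refine ⟨?_, h3 _ hj u huB hlt.le⟩
    rintro rfl
    exact lt_irrefl _ hlt
  have h4 := Finset.card_le_card hTD
  rw [Finset.card_erase_of_mem hj, h2] at h4
  have h5 : C.off (Finset.univ.image sep) v ≤ K - 1 := by
    refine le_trans (le_of_eq ?_) h4
    simp only [Conf.off]
    congr
  omega

/-- Rank of `v` in the order of abscissas. -/
noncomputable def rk {V : Type*} [Fintype V] (x : V → ℝ) (v : V) : ℕ :=
  (Finset.univ.filter fun u => x u < x v).card

theorem rk_lt_iff {V : Type*} [Fintype V] (x : V → ℝ) (u v : V) :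
    rk x u < rk x v ↔ x u < x v := by
  constructor
  · intro h
    by_contra hcon
    have hcon := not_lt.1 hcon
    have : rk x v ≤ rk x u := by
      apply Finset.card_le_card
      intro w hw
      simp only [Finset.mem_filter, Finset.mem_univ, true_and] at hw ⊢
      exact hw.trans_le hcon
    omega
  · intro h
    apply Finset.card_lt_card
    rw [Finset.ssubset_iff_of_subset]
    · exact ⟨u, by simpa using h, by simp⟩
    · intro w hw
      simp only [Finset.mem_filter, Finset.mem_univ, true_and] at hw ⊢
      exact hw.trans h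

theorem rk_lt_card {V : Type*} [Fintype V] (x : V → ℝ) (v : V) : rk x v < Fintype.card V := by
  rw [← Finset.card_univ]
  apply Finset.card_lt_card
  rw [Finset.ssubset_iff_of_subset (Finset.subset_univ _)]
  exact ⟨v, Finset.mem_univ v, by simp⟩

theorem exists_slab {V : Type*} [Fintype V] (x : V → ℝ) (hx : Function.Injective x) (K L : ℕ)
    (hcard : Fintype.card V = K * L) (hK : 0 < K) :
    ∃ slab : Fin L → V, ∀ j, rk x (slab j) = j * K := by
  have hinj : Function.Injective fun v => (⟨rk x v, rk_lt_card x v⟩ : Fin (Fintype.card V)) := by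
    intro u v huv
    have h : rk x u = rk x v := congrArg Fin.val huv
    by_contra hne
    rcases lt_or_gt_of_ne (fun h => hne (hx h) : x u ≠ x v) with h1 | h1
    · have := (rk_lt_iff x u v).2 h1
      omega
    · have := (rk_lt_iff x v u).2 h1
      omega
  have hbij := (Fintype.bijective_iff_injective_and_card _).2 ⟨hinj, by simp⟩
  have hsurj := hbij.2
  have hlt : ∀ j : Fin L, (j : ℕ) * K < Fintype.card V := by
    intro j
    rw [hcard, mul_comm K L]
    exact Nat.mul_lt_mul_of_pos_right j.2 hK
  choose v hv using fun j : Fin L => hsurj ⟨(j : ℕ) * K, hlt j⟩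
  refine ⟨v, fun j => ?_⟩
  exact congrArg Fin.val (hv j)

theorem rk_eq_of {V : Type*} [Fintype V] (x x' : V → ℝ) (K L : ℕ)
    (hcard : Fintype.card V = K * L) (hK : 0 < K) (slab : Fin L → V)
    (h1 : ∀ j, rk x (slab j) = j * K) (h2 : ∀ j, rk x' (slab j) = j * K)
    (h3 : ∀ j v, x (slab j) < x v ↔ x' (slab j) < x' v)
    (h4 : ∀ v, rk x v % K = rk x' v % K) (v : V) : rk x v = rk x' v := by
  have aux : ∀ y y' : V → ℝ, (∀ j, rk y (slab j) = j * K) → (∀ j, rk y' (slab j) = j * K) →
      (∀ j, y (slab j) < y v ↔ y' (slab j) < y' v) → rk y v % K = rk y' v % K →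
      ¬ rk y v < rk y' v := by
    intro y y' g1 g2 g3 g4 hlt
    -- there is a multiple of `K` in `[rk y v, rk y' v)`
    have hdiv : rk y v / K < rk y' v / K := by
      by_contra hcon
      have hcon := not_lt.1 hcon
      have e1 := Nat.div_add_mod (rk y v) K
      have e2 := Nat.div_add_mod (rk y' v) K
      have : K * (rk y' v / K) ≤ K * (rk y v / K) := Nat.mul_le_mul_left _ hcon
      omega
    let j := rk y' v / K
    by_cases hr : rk y' v % K = 0
    · -- both are multiples of `K`; use `rk y v`
      have e1 := Nat.div_add_mod (rk y v) K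
      have e2 := Nat.div_add_mod (rk y' v) K
      have hjL : rk y v / K < L := by
        have := rk_lt_card y v
        rw [hcard] at this
        exact Nat.div_lt_of_lt_mul this
      have g := g3 ⟨rk y v / K, hjL⟩
      rw [← rk_lt_iff, ← rk_lt_iff, g1, g2] at g
      simp only at g
      have hm : rk y v / K * K = rk y v := by
        rw [mul_comm]
        omega
      rw [hm] at g
      exact lt_irrefl _ (g.2 hlt)
    · have e1 := Nat.div_add_mod (rk y v) K
      have e2 := Nat.div_add_mod (rk y' v) K
      have hjL : rk y' v / K < L := by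
        have := rk_lt_card y' v
        rw [hcard] at this
        exact Nat.div_lt_of_lt_mul this
      have g := g3 ⟨rk y' v / K, hjL⟩
      rw [← rk_lt_iff, ← rk_lt_iff, g1, g2] at g
      simp only at g
      have hlt' : rk y' v / K * K < rk y' v := by
        have : rk y' v / K * K = K * (rk y' v / K) := mul_comm _ _
        omega
      have hcontra := g.2 hlt'
      have h5 : (rk y v / K + 1) * K ≤ rk y' v / K * K := Nat.mul_le_mul_right _ hdiv
      have h6 : (rk y v / K + 1) * K = K * (rk y v / K) + K := by ring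
      have h7 : rk y v % K < K := Nat.mod_lt _ hK
      omega
  have a1 := aux x x' h1 h2 (fun j => h3 j v) (h4 v)
  have a2 := aux x' x h2 h1 (fun j => (h3 j v).symm) (h4 v).symm
  omega

end Pool.Agent.Helper67
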