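import Mathlib
import Pool.Agent.Helper67.CritPoints

/-!
# A weak sparse form of Warren's theorem on sign patterns

All in box-degree form, proved with Sard's lemma and the Bezout-type bound of `CritPoints`.
-/

namespace Pool.Agent.Helper67

open MvPolynomial

section deriv

variable {σ : Type*} [Fintype σ]

theorem hasFDerivAt_eval (p : MvPolynomial σ ℝ) (x : σ → ℝ) :
    HasFDerivAt (fun x : σ → ℝ => eval x p)
      (∑ l, eval x (pderiv l p) • (ContinuousLinearMap.proj l : (σ → ℝ) →L[ℝ] ℝ)) x := by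
  classical
  induction p using MvPolynomial.induction_on with
  | C a => simpa using hasFDerivAt_const a x
  | add p q hp hq =>
    have h2 : (fun x : σ → ℝ => eval x (p + q)) = (fun x : σ → ℝ => eval x p) + fun x => eval x q := by
      funext x
      simp
    rw [h2]
    refine (hp.add hq).congr_fderiv ?_
    rw [← Finset.sum_add_distrib]
    refine Finset.sum_congr rfl fun k _ => ?_
    rw [map_add, map_add, add_smul]
  | mul_X p l hp =>
    have h2 : (fun x : σ → ℝ => eval x (p * X l)) = (fun x : σ → ℝ => eval x p) * fun x => x l := by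
      funext x
      simp
    rw [h2]
    refine (hp.mul (hasFDerivAt_apply (𝕜 := ℝ) l x)).congr_fderiv ?_
    refine ContinuousLinearMap.ext fun y => ?_
    simp only [FunLike.coe_sum, Finset.sum_apply, FunLike.coe_smul,
      Pi.smul_apply, ContinuousLinearMap.proj_apply, smul_eq_mul, add_apply]
    have h3 : ∀ k, eval x (pderiv k (p * X l)) * y k =
        x l * (eval x (pderiv k p) * y k) + (if k = l then eval x p * y k else 0) := by
      intro k
      rw [pderiv_mul, pderiv_X]
      by_cases hk : k = l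
      · subst hk
        simp
        ring
      · simp [hk, Ne.symm hk]
        ring
    rw [Finset.sum_congr rfl fun k _ => h3 k, Finset.sum_add_distrib, ← Finset.mul_sum]
    simp
    ring

/-- A generic linear perturbation makes all critical points nondegenerate (Sard). -/
theorem exists_generic (F : σ → MvPolynomial σ ℝ) :
    ∃ a : σ → ℝ, ∀ x : σ → ℝ, (∀ l, eval x (F l) ≠ 0) →
      (∀ l, eval x (pderiv l (F l) + C (a l) * F l) = 0) →
      ∀ y : σ → ℝ, (∀ l, ∑ l', y l' * eval x (pderiv l' (pderiv l (F l) + C (a l) * F l)) = 0) →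
        y = 0 := by
  classical
  let U : Set (σ → ℝ) := {x | ∀ l, eval x (F l) ≠ 0}
  let Θ : (σ → ℝ) → (σ → ℝ) := fun x l => -(eval x (pderiv l (F l)) * (eval x (F l))⁻¹)
  let D : MvPolynomial σ ℝ → (σ → ℝ) → ((σ → ℝ) →L[ℝ] ℝ) := fun p x =>
    ∑ l, eval x (pderiv l p) • (ContinuousLinearMap.proj l : (σ → ℝ) →L[ℝ] ℝ)
  let Θ' : (σ → ℝ) → ((σ → ℝ) →L[ℝ] (σ → ℝ)) := fun x =>
    ContinuousLinearMap.pi fun l =>
      -(eval x (pderiv l (F l)) • (-((eval x (F l)) ^ 2)⁻¹ • D (F l) x) +
        (eval x (F l))⁻¹ • D (pderiv l (F l)) x)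
  have hderiv : ∀ x ∈ U, HasFDerivAt Θ (Θ' x) x := by
    intro x hx
    rw [hasFDerivAt_pi]
    intro l
    have h1 : HasFDerivAt (fun x : σ → ℝ => (eval x (F l))⁻¹)
        (-((eval x (F l)) ^ 2)⁻¹ • D (F l) x) x :=
      (hasDerivAt_inv (hx l)).comp_hasFDerivAt x (hasFDerivAt_eval (F l) x)
    exact ((hasFDerivAt_eval (pderiv l (F l)) x).mul h1).neg
  let s : Set (σ → ℝ) := {x | x ∈ U ∧ (Θ' x).det = 0}
  have hnull : MeasureTheory.volume (Θ '' s) = 0 :=
    MeasureTheory.addHaar_image_eq_zero_of_det_fderivWithin_eq_zero MeasureTheory.volume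
      (fun x hx => (hderiv x hx.1).hasFDerivWithinAt) (fun x hx => hx.2)
  obtain ⟨a, ha⟩ : ∃ a, a ∉ Θ '' s := by
    by_contra hcon
    push Not at hcon
    have huniv : Θ '' s = Set.univ := Set.eq_univ_of_forall hcon
    rw [huniv] at hnull
    exact (isOpen_univ.measure_pos MeasureTheory.volume Set.univ_nonempty).ne' hnull
  refine ⟨a, fun x hx hxa y hy => ?_⟩
  have haΘ : Θ x = a := by
    funext l
    have h1 := hxa l
    simp only [map_add, map_mul, eval_C] at h1
    have h2 := hx l
    simp only [Θ]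
    field_simp
    linarith
  have hdet : (Θ' x).det ≠ 0 := fun h => ha ⟨x, ⟨hx, h⟩, haΘ⟩
  have hker : (Θ' x : (σ → ℝ) →ₗ[ℝ] (σ → ℝ)).ker = ⊥ := by
    by_contra hcon
    exact hdet (LinearMap.det_eq_zero_iff_ker_ne_bot.2 hcon)
  have hy0 : Θ' x y = 0 := by
    funext l
    have h1 := hy l
    have h2 := hx l
    have h3 : a l = -(eval x (pderiv l (F l)) * (eval x (F l))⁻¹) := by
      rw [← haΘ]
    have hD : ∀ p, D p x y = ∑ l', y l' * eval x (pderiv l' p) := by
      intro p
      simp only [D, FunLike.coe_sum, Finset.sum_apply, FunLike.coe_smul,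
        Pi.smul_apply, ContinuousLinearMap.proj_apply, smul_eq_mul]
      exact Finset.sum_congr rfl fun _ _ => mul_comm _ _
    have h4 : ∑ l', y l' * eval x (pderiv l' (pderiv l (F l) + C (a l) * F l)) =
        D (pderiv l (F l)) x y + a l * D (F l) x y := by
      rw [hD, hD, Finset.mul_sum, ← Finset.sum_add_distrib]
      refine Finset.sum_congr rfl fun l' _ => ?_
      rw [map_add, pderiv_C_mul, map_add, map_mul, eval_C]
      ring
    rw [h4, h3] at h1
    simp only [Θ', ContinuousLinearMap.coe_pi', neg_apply,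
      add_apply, FunLike.coe_smul, Pi.smul_apply, smul_eq_mul,
      Pi.zero_apply]
    have h5 : (eval x (F l)) ≠ 0 := h2
    field_simp
    field_simp at h1
    linarith
  have := LinearMap.ker_eq_bot'.1 hker y hy0
  exact this

end deriv

section crit

variable {σ ι : Type*} [Fintype σ] [Fintype ι]

/-- `1` or `-1`. -/
def sg (b : Bool) : ℝ := if b then 1 else -1

theorem sg_ne_zero (b : Bool) : sg b ≠ 0 := by
  cases b <;> simp [sg]

/-- In each cell, bounded by a box, of the complement of the zero sets there is a critical point. -/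
theorem exists_crit (f : ι → MvPolynomial σ ℝ) (a : σ → ℝ) (ρ : ℝ) (p : ι → Bool)
    (u : σ → ℝ) (hu : ∀ l, |u l| < ρ) (hp : ∀ i, 0 < sg (p i) * eval u (f i)) :
    ∃ x : σ → ℝ, (∀ l, x l ^ 2 < ρ ^ 2) ∧ (∀ i, 0 < sg (p i) * eval x (f i)) ∧
      ∀ l, eval x (pderiv l ((∏ k, (C (ρ ^ 2) - X k ^ 2)) * ∏ i, f i)) +
        a l * eval x ((∏ k, (C (ρ ^ 2) - X k ^ 2)) * ∏ i, f i) = 0 := by
  classical
  let G : MvPolynomial σ ℝ := (∏ k, (C (ρ ^ 2) - X k ^ 2)) * ∏ i, (C (sg (p i)) * f i)
  have hGval : ∀ x : σ → ℝ, eval x G =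
      (∏ k, (ρ ^ 2 - x k ^ 2)) * ∏ i, (sg (p i) * eval x (f i)) := by
    intro x
    simp only [G, map_mul, map_prod, map_sub, map_pow, eval_C, eval_X]
  let φ : (σ → ℝ) → ℝ := fun x => eval x G * Real.exp (∑ l, a l * x l)
  let K : Set (σ → ℝ) := Set.pi Set.univ (fun _ => Set.Icc (-ρ) ρ) ∩
    {x | ∀ i, 0 ≤ sg (p i) * eval x (f i)}
  have hclosed : IsClosed {x : σ → ℝ | ∀ i, 0 ≤ sg (p i) * eval x (f i)} := by
    rw [Set.ofPred_forall]
    refine isClosed_iInter fun i => ?_
    exact isClosed_le continuous_const (continuous_const.mul (continuous_eval (f i)))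
  have hK : IsCompact K := (isCompact_univ_pi fun _ => isCompact_Icc).inter_right hclosed
  have huK : u ∈ K := by
    refine ⟨fun l _ => abs_le.1 (hu l).le, fun i => (hp i).le⟩
  have hcont : Continuous φ := by
    refine (continuous_eval G).mul (Real.continuous_exp.comp ?_)
    exact continuous_finsetSum _ fun l _ => continuous_const.mul (continuous_apply l)
  obtain ⟨x, hxK, hmax⟩ := hK.exists_isMaxOn ⟨u, huK⟩ hcont.continuousOn
  have hu2 : ∀ l, 0 < ρ ^ 2 - u l ^ 2 := by
    intro l
    have := hu l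
    have h0 : 0 ≤ |u l| := abs_nonneg _
    have : |u l| ^ 2 < ρ ^ 2 := by
      apply pow_lt_pow_left₀ this h0
      norm_num
    rw [sq_abs] at this
    linarith
  have hφu : 0 < φ u := by
    refine mul_pos ?_ (Real.exp_pos _)
    rw [hGval]
    exact mul_pos (Finset.prod_pos fun l _ => hu2 l) (Finset.prod_pos fun i _ => hp i)
  have hφx : 0 < φ x := lt_of_lt_of_le hφu (hmax huK)
  have hGx : 0 < eval x G := by
    have := Real.exp_pos (∑ l, a l * x l)
    exact (pos_iff_pos_of_mul_pos hφx).2 this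
  have hGx0 := hGx.ne'
  rw [hGval] at hGx0
  have hx2 : ∀ l, 0 < ρ ^ 2 - x l ^ 2 := by
    intro l
    have h1 : ρ ^ 2 - x l ^ 2 ≠ 0 := by
      intro h
      apply hGx0
      rw [Finset.prod_eq_zero (Finset.mem_univ l) h, zero_mul]
    have h2 := hxK.1 l (Set.mem_univ l)
    have h3 : |x l| ≤ ρ := abs_le.2 h2
    have h4 : x l ^ 2 ≤ ρ ^ 2 := by
      rw [← sq_abs]
      exact pow_le_pow_left₀ (abs_nonneg _) h3 2
    exact lt_of_le_of_ne (by linarith) h1.symm
  have hxf : ∀ i, 0 < sg (p i) * eval x (f i) := by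
    intro i
    refine lt_of_le_of_ne (hxK.2 i) fun h => ?_
    apply hGx0
    rw [Finset.prod_eq_zero (Finset.mem_univ i) h.symm, mul_zero]
  refine ⟨x, fun l => by linarith [hx2 l], hxf, ?_⟩
  have hρ : ∀ l, |x l| < ρ := by
    intro l
    have h2 := hxK.1 l (Set.mem_univ l)
    have h3 : |x l| ≤ ρ := abs_le.2 h2
    refine lt_of_le_of_ne h3 fun h => ?_
    have := hx2 l
    rw [← sq_abs (x l), h] at this
    linarith
  have hopen : IsOpen ({y : σ → ℝ | ∀ l, |y l| < ρ} ∩ {y | ∀ i, 0 < sg (p i) * eval y (f i)}) := by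
    refine IsOpen.inter ?_ ?_
    · rw [Set.ofPred_forall]
      exact isOpen_iInter_of_finite fun l =>
        isOpen_lt (continuous_abs.comp (continuous_apply l)) continuous_const
    · rw [Set.ofPred_forall]
      exact isOpen_iInter_of_finite fun i =>
        isOpen_lt continuous_const (continuous_const.mul (continuous_eval (f i)))
  have hloc : IsLocalMax φ x := by
    refine hmax.isLocalMax (Filter.mem_of_superset (hopen.mem_nhds ⟨hρ, hxf⟩) ?_)
    rintro y ⟨hy1, hy2⟩
    exact ⟨fun l _ => abs_le.1 (hy1 l).le, fun i => (hy2 i).le⟩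
  have hlin : HasFDerivAt (fun x : σ → ℝ => ∑ l, a l * x l)
      (∑ l, a l • (ContinuousLinearMap.proj l : (σ → ℝ) →L[ℝ] ℝ)) x := by
    have : (fun x : σ → ℝ => ∑ l, a l * x l) =
        ⇑(∑ l, a l • (ContinuousLinearMap.proj l : (σ → ℝ) →L[ℝ] ℝ)) := by
      funext y
      simp
    rw [this]
    exact ContinuousLinearMap.hasFDerivAt _
  have hder := (hasFDerivAt_eval G x).mul hlin.exp
  have hzero := hloc.hasFDerivAt_eq_zero hder
  intro l
  have h1 := congrArg (fun T : (σ → ℝ) →L[ℝ] ℝ => T (Pi.single l 1)) hzero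
  simp only [add_apply, FunLike.coe_smul, Pi.smul_apply,
    FunLike.coe_sum, Finset.sum_apply, ContinuousLinearMap.proj_apply, smul_eq_mul,
    zero_apply] at h1
  have h2 : ∀ g : σ → ℝ, ∑ k, g k * (Pi.single l (1 : ℝ) : σ → ℝ) k = g l := by
    intro g
    rw [Finset.sum_eq_single l]
    · simp
    · intro k _ hk
      simp [hk]
    · simp
  rw [h2, h2] at h1
  have hexp := Real.exp_pos (∑ l, a l * x l)
  have h3 : eval x (pderiv l G) + a l * eval x G = 0 := by
    have h4 : Real.exp (∑ l, a l * x l) * (eval x (pderiv l G) + a l * eval x G) = 0 := by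
      linarith
    rcases mul_eq_zero.1 h4 with h5 | h5
    · exact absurd h5 hexp.ne'
    · exact h5
  have hGF : G = C (∏ i, sg (p i)) * ((∏ k, (C (ρ ^ 2) - X k ^ 2)) * ∏ i, f i) := by
    simp only [G, Finset.prod_mul_distrib, map_prod]
    ring
  have e1 : ∀ q : MvPolynomial σ ℝ, eval x (C (∏ i, sg (p i)) * q) = (∏ i, sg (p i)) * eval x q :=
    fun q => by rw [map_mul, eval_C]
  rw [hGF, pderiv_C_mul, e1, e1] at h3
  have hc : ∏ i, sg (p i) ≠ 0 := Finset.prod_ne_zero_iff.2 fun i _ => sg_ne_zero _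
  have h6 : (∏ i, sg (p i)) * (eval x (pderiv l ((∏ k, (C (ρ ^ 2) - X k ^ 2)) * ∏ i, f i)) +
      a l * eval x ((∏ k, (C (ρ ^ 2) - X k ^ 2)) * ∏ i, f i)) = 0 := by
    linarith
  rcases mul_eq_zero.1 h6 with h7 | h7
  · exact absurd h7 hc
  · exact h7

end crit

section count

variable {σ ι : Type*} [Fintype σ] [DecidableEq σ] [Fintype ι]

theorem degreeOf_pderiv_le' (l l' : σ) (p : MvPolynomial σ ℝ) :
    degreeOf l' (pderiv l p) ≤ degreeOf l' p := by
  rw [degreeOf_le_iff]
  intro m hm
  rw [mem_support_iff, coeff_pderiv] at hm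
  have h1 : m + Finsupp.single l 1 ∈ p.support := by
    rw [mem_support_iff]
    intro h
    exact hm (by rw [h, zero_mul])
  have h2 := degreeOf_le_iff.1 (le_refl (degreeOf l' p)) _ h1
  refine le_trans ?_ h2
  simp

/-- Sparse weak Warren bound, for strict sign patterns. -/
theorem strict_patterns_card (f : ι → MvPolynomial σ ℝ) (dep : σ → Finset ι)
    (hdep : ∀ l i, i ∉ dep l → pderiv l (f i) = 0) (d : ι → σ → ℕ)
    (hd : ∀ i l, degreeOf l (f i) ≤ d i l) (s A : σ → ℕ)
    (hA : ∀ l', ∑ l, s l * (∑ i ∈ dep l, d i l' + if l = l' then 2 else 0) ≤ A l')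
    (S : Finset (ι → Bool)) (hS : ∀ p ∈ S, ∃ x : σ → ℝ, ∀ i, 0 < sg (p i) * eval x (f i)) :
    S.card * ∏ l, s l ≤ ∏ l, (A l + 1) := by
  classical
  choose! u hu using hS
  let ρ : ℝ := 1 + ∑ p ∈ S, ∑ l, |u p l|
  have hρ : ∀ p ∈ S, ∀ l, |u p l| < ρ := by
    intro p hp l
    have h1 : |u p l| ≤ ∑ l, |u p l| :=
      Finset.single_le_sum (f := fun l => |u p l|) (fun _ _ => abs_nonneg _) (Finset.mem_univ l)
    have h2 : ∑ l, |u p l| ≤ ∑ p ∈ S, ∑ l, |u p l| :=
      Finset.single_le_sum (f := fun p => ∑ l, |u p l|)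
        (fun _ _ => Finset.sum_nonneg fun _ _ => abs_nonneg _) hp
    simp only [ρ]
    linarith
  let F : σ → MvPolynomial σ ℝ := fun l => (C (ρ ^ 2) - X l ^ 2) * ∏ i ∈ dep l, f i
  obtain ⟨a, ha⟩ := exists_generic F
  have hcrit : ∀ p ∈ S, ∃ x : σ → ℝ, (∀ l, x l ^ 2 < ρ ^ 2) ∧ (∀ i, 0 < sg (p i) * eval x (f i)) ∧
      ∀ l, eval x (pderiv l ((∏ k, (C (ρ ^ 2) - X k ^ 2)) * ∏ i, f i)) +
        a l * eval x ((∏ k, (C (ρ ^ 2) - X k ^ 2)) * ∏ i, f i) = 0 :=
    fun p hp => exists_crit f a ρ p (u p) (hρ p hp) (hu p hp)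
  choose! x hx1 hx2 hx3 using hcrit
  have hfne : ∀ p ∈ S, ∀ i, eval (x p) (f i) ≠ 0 := by
    intro p hp i h
    have := hx2 p hp i
    rw [h, mul_zero] at this
    exact lt_irrefl _ this
  have hFne : ∀ p ∈ S, ∀ l, eval (x p) (F l) ≠ 0 := by
    intro p hp l
    simp only [F, map_mul, map_sub, map_pow, eval_C, eval_X, map_prod]
    refine mul_ne_zero ?_ (Finset.prod_ne_zero_iff.2 fun i _ => hfne p hp i)
    have := hx1 p hp l
    linarith
  let P : σ → MvPolynomial σ ℝ := fun l => pderiv l (F l) + C (a l) * F l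
  have hPzero : ∀ p ∈ S, ∀ l, eval (x p) (P l) = 0 := by
    intro p hp l
    let H : MvPolynomial σ ℝ :=
      (∏ k ∈ Finset.univ.erase l, (C (ρ ^ 2) - X k ^ 2)) * ∏ i ∈ (dep l)ᶜ, f i
    have hfull : (∏ k, (C (ρ ^ 2) - X k ^ 2)) * ∏ i, f i = F l * H := by
      rw [← Finset.mul_prod_erase Finset.univ (fun k => (C (ρ ^ 2) - X k ^ 2 : MvPolynomial σ ℝ))
        (Finset.mem_univ l), ← Finset.prod_mul_prod_compl (dep l) f]
      simp only [F, H]
      ring
    have hHd : pderiv l H = 0 := by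
      have h1 : ∀ k ∈ Finset.univ.erase l, pderiv l (C (ρ ^ 2) - X k ^ 2 : MvPolynomial σ ℝ) = 0 := by
        intro k hk
        have hk' : k ≠ l := Finset.ne_of_mem_erase hk
        rw [map_sub, pderiv_C, pderiv_pow, pderiv_X_of_ne hk']
        simp
      have h2 : ∀ (T : Finset σ) (g : σ → MvPolynomial σ ℝ), (∀ k ∈ T, pderiv l (g k) = 0) →
          pderiv l (∏ k ∈ T, g k) = 0 := by
        intro T g
        induction T using Finset.induction_on with
        | empty => simp
        | insert k T hk ih =>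
          intro h
          rw [Finset.prod_insert hk, pderiv_mul, h k (Finset.mem_insert_self _ _),
            ih fun k hk => h k (Finset.mem_insert_of_mem hk)]
          simp
      have h3 : ∀ (T : Finset ι) (g : ι → MvPolynomial σ ℝ), (∀ k ∈ T, pderiv l (g k) = 0) →
          pderiv l (∏ k ∈ T, g k) = 0 := by
        intro T g
        induction T using Finset.induction_on with
        | empty => simp
        | insert k T hk ih =>
          intro h
          rw [Finset.prod_insert hk, pderiv_mul, h k (Finset.mem_insert_self _ _),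
            ih fun k hk => h k (Finset.mem_insert_of_mem hk)]
          simp
      simp only [H]
      rw [pderiv_mul, h2 _ _ h1, h3 _ _ fun i hi => hdep l i (Finset.mem_compl.1 hi)]
      simp
    have hHne : eval (x p) H ≠ 0 := by
      simp only [H, map_mul, map_prod, map_sub, map_pow, eval_C, eval_X]
      refine mul_ne_zero (Finset.prod_ne_zero_iff.2 fun k _ => ?_)
        (Finset.prod_ne_zero_iff.2 fun i _ => hfne p hp i)
      have := hx1 p hp k
      linarith
    have h4 := hx3 p hp l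
    rw [hfull, pderiv_mul, hHd, mul_zero, add_zero] at h4
    have h5 : eval (x p) (P l) * eval (x p) H = 0 := by
      rw [← h4]
      simp only [P, map_add, map_mul, eval_C]
      ring
    rcases mul_eq_zero.1 h5 with h6 | h6
    · exact h6
    · exact absurd h6 hHne
  have hcard := card_zeros_le (N := S) P (fun p => x p) ?_ ?_ ?_ s A ?_
  · rwa [Fintype.card_coe] at hcard
  · rintro ⟨p, hp⟩ ⟨q, hq⟩ hpq
    simp only at hpq
    apply Subtype.ext
    funext i
    have h1 := hx2 p hp i
    have h2 := hx2 q hq i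
    rw [hpq] at h1
    simp only
    cases hpi : p i <;> cases hqi : q i
    · rfl
    · rw [hpi] at h1
      rw [hqi] at h2
      simp only [sg] at h1 h2
      norm_num at h1 h2
      linarith
    · rw [hpi] at h1
      rw [hqi] at h2
      simp only [sg] at h1 h2
      norm_num at h1 h2
      linarith
    · rfl
  · rintro ⟨p, hp⟩ l
    exact hPzero p hp l
  · rintro ⟨p, hp⟩ y hy
    exact ha (x p) (hFne p hp) (hPzero p hp) y hy
  · intro l'
    refine le_trans (Finset.sum_le_sum fun l _ => Nat.mul_le_mul_left _ ?_) (hA l')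
    have hF : degreeOf l' (F l) ≤ ∑ i ∈ dep l, d i l' + if l = l' then 2 else 0 := by
      refine (degreeOf_mul_le _ _ _).trans ?_
      rw [add_comm]
      refine Nat.add_le_add ((degreeOf_prod_le _ _ _).trans
        (Finset.sum_le_sum fun i _ => hd i l')) ?_
      refine (degreeOf_sub_le _ _ _).trans ?_
      rw [degreeOf_C]
      refine max_le (Nat.zero_le _) ?_
      refine (degreeOf_pow_le _ _ _).trans ?_
      rw [degreeOf_X]
      by_cases h : l = l'
      · subst h
        simp
      · rw [if_neg (Ne.symm h), if_neg h]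
    refine le_trans ?_ hF
    refine (degreeOf_add_le _ _ _).trans (max_le (degreeOf_pderiv_le' _ _ _) ?_)
    exact (degreeOf_C_mul_le _ _ _)

/-- Sparse weak Warren bound, for the patterns of truth values `0 < f i`. -/
theorem patterns_card (f : ι → MvPolynomial σ ℝ) (dep : σ → Finset ι)
    (hdep : ∀ l i, i ∉ dep l → pderiv l (f i) = 0) (d : ι → σ → ℕ)
    (hd : ∀ i l, degreeOf l (f i) ≤ d i l) (s A : σ → ℕ)
    (hA : ∀ l', ∑ l, s l * (∑ i ∈ dep l, d i l' + if l = l' then 2 else 0) ≤ A l')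
    (S : Finset (ι → Bool)) (hS : ∀ p ∈ S, ∃ x : σ → ℝ, ∀ i, p i = true ↔ 0 < eval x (f i)) :
    S.card * ∏ l, s l ≤ ∏ l, (A l + 1) := by
  classical
  choose! u hu using hS
  have heps : ∃ ε : ℝ, 0 < ε ∧ ∀ p ∈ S, ∀ i, p i = true → ε < eval (u p) (f i) := by
    have h1 : ∀ T : Finset ((ι → Bool) × ι), (∀ t ∈ T, t.1 ∈ S ∧ t.1 t.2 = true) →
        ∃ ε : ℝ, 0 < ε ∧ ∀ t ∈ T, ε < eval (u t.1) (f t.2) := by
      intro T
      induction T using Finset.induction_on with
      | empty => exact fun _ => ⟨1, one_pos, by simp⟩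
      | insert t T ht ih =>
        intro h
        obtain ⟨ε, hε, hT⟩ := ih fun t ht => h t (Finset.mem_insert_of_mem ht)
        have h2 := h t (Finset.mem_insert_self _ _)
        have h3 : 0 < eval (u t.1) (f t.2) := (hu t.1 h2.1 t.2).1 h2.2
        refine ⟨min ε (eval (u t.1) (f t.2) / 2), lt_min hε (by linarith), ?_⟩
        intro t' ht'
        rcases Finset.mem_insert.1 ht' with rfl | h4
        · exact lt_of_le_of_lt (min_le_right _ _) (by linarith)
        · exact lt_of_le_of_lt (min_le_left _ _) (hT t' h4)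
    obtain ⟨ε, hε, h2⟩ := h1 ((S ×ˢ Finset.univ).filter fun t => t.1 t.2 = true) (by
      intro t ht
      rw [Finset.mem_filter, Finset.mem_product] at ht
      exact ⟨ht.1.1, ht.2⟩)
    refine ⟨ε, hε, fun p hp i hi => h2 (p, i) ?_⟩
    rw [Finset.mem_filter, Finset.mem_product]
    exact ⟨⟨hp, Finset.mem_univ _⟩, hi⟩
  obtain ⟨ε, hε, hεS⟩ := heps
  refine strict_patterns_card (fun i => f i - C ε) dep ?_ d ?_ s A hA S ?_
  · intro l i hi
    rw [map_sub, pderiv_C, hdep l i hi, sub_zero]
  · intro i l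
    refine (degreeOf_sub_le _ _ _).trans ?_
    rw [degreeOf_C]
    exact max_le (hd i l) (Nat.zero_le _)
  · intro p hp
    refine ⟨u p, fun i => ?_⟩
    rw [map_sub, eval_C]
    cases hpi : p i
    · have h1 : ¬ 0 < eval (u p) (f i) := by
        intro h
        have := (hu p hp i).2 h
        rw [hpi] at this
        exact Bool.false_ne_true this
      simp only [sg]
      norm_num
      linarith
    · have h1 := hεS p hp i hpi
      simp only [sg]
      norm_num
      linarith

end count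

end Pool.Agent.Helper67
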