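import Mathlib
import Pool.Agent.Helper67.SignPatterns

/-!
# Counting realizable patterns of points against few lines
-/

namespace Pool.Agent.Helper67

open MvPolynomial

section

variable {V : Type*} {Δ N0 L : ℕ}

noncomputable def xvar (v : V) : MvPolynomial (V × Bool) ℝ := X (v, false)

noncomputable def yvar (v : V) : MvPolynomial (V × Bool) ℝ := X (v, true)

/-- The orientation polynomial of `a, b, v`. -/
noncomputable def oriPoly (a b v : V) : MvPolynomial (V × Bool) ℝ :=
  (xvar b - xvar a) * (yvar v - yvar a) - (yvar b - yvar a) * (xvar v - xvar a)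

/-- The polynomials: for every vertex `v`, its position with respect to each separator line and
to each slab line. -/
noncomputable def poly (slab : Fin L → V) (sep : Fin Δ → Fin N0 → V × V) :
    V × ((Fin Δ × Fin N0) ⊕ Fin L) → MvPolynomial (V × Bool) ℝ
  | (v, Sum.inl tj) => oriPoly (sep tj.1 tj.2).1 (sep tj.1 tj.2).2 v
  | (v, Sum.inr j) => xvar v - xvar (slab j)

theorem degreeOf_var_le (l m : V × Bool) : degreeOf l (X m : MvPolynomial (V × Bool) ℝ) ≤ 1 := by
  classical
  rw [degreeOf_X]
  split_ifs <;> simp

theorem degreeOf_var_eq {l m : V × Bool} (h : l.1 ≠ m.1) :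
    degreeOf l (X m : MvPolynomial (V × Bool) ℝ) = 0 := by
  classical
  rw [degreeOf_X, if_neg]
  rintro rfl
  exact h rfl

theorem degreeOf_sub_var_le (l m m' : V × Bool) :
    degreeOf l (X m - X m' : MvPolynomial (V × Bool) ℝ) ≤ 1 :=
  (degreeOf_sub_le _ _ _).trans (max_le (degreeOf_var_le _ _) (degreeOf_var_le _ _))

theorem degreeOf_sub_var_eq {l m m' : V × Bool} (h : l.1 ≠ m.1) (h' : l.1 ≠ m'.1) :
    degreeOf l (X m - X m' : MvPolynomial (V × Bool) ℝ) = 0 := by
  have := degreeOf_sub_le l (X m : MvPolynomial (V × Bool) ℝ) (X m')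
  rw [degreeOf_var_eq h, degreeOf_var_eq h'] at this
  simpa using this

theorem degreeOf_oriPoly_le (l : V × Bool) (a b v : V) : degreeOf l (oriPoly a b v) ≤ 2 := by
  refine (degreeOf_sub_le _ _ _).trans (max_le ?_ ?_)
  · exact (degreeOf_mul_le _ _ _).trans
      (Nat.add_le_add (degreeOf_sub_var_le _ _ _) (degreeOf_sub_var_le _ _ _))
  · exact (degreeOf_mul_le _ _ _).trans
      (Nat.add_le_add (degreeOf_sub_var_le _ _ _) (degreeOf_sub_var_le _ _ _))

theorem degreeOf_oriPoly_eq {l : V × Bool} {a b v : V} (ha : l.1 ≠ a) (hb : l.1 ≠ b)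
    (hv : l.1 ≠ v) : degreeOf l (oriPoly a b v) = 0 := by
  rw [← Nat.le_zero]
  refine (degreeOf_sub_le _ _ _).trans (max_le ?_ ?_)
  · refine (degreeOf_mul_le _ _ _).trans ?_
    rw [xvar, xvar, yvar, yvar, degreeOf_sub_var_eq hb ha, degreeOf_sub_var_eq hv ha]
  · refine (degreeOf_mul_le _ _ _).trans ?_
    rw [xvar, xvar, yvar, yvar, degreeOf_sub_var_eq hb ha, degreeOf_sub_var_eq hv ha]

theorem pderiv_var_eq {l m : V × Bool} (h : l.1 ≠ m.1) :
    pderiv l (X m : MvPolynomial (V × Bool) ℝ) = 0 := by
  apply pderiv_X_of_ne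
  rintro rfl
  exact h rfl

theorem pderiv_oriPoly_eq {l : V × Bool} {a b v : V} (ha : l.1 ≠ a) (hb : l.1 ≠ b)
    (hv : l.1 ≠ v) : pderiv l (oriPoly a b v) = 0 := by
  have h1 : ∀ c, pderiv l (X (a, c) : MvPolynomial (V × Bool) ℝ) = 0 := fun c => pderiv_var_eq ha
  have h2 : ∀ c, pderiv l (X (b, c) : MvPolynomial (V × Bool) ℝ) = 0 := fun c => pderiv_var_eq hb
  have h3 : ∀ c, pderiv l (X (v, c) : MvPolynomial (V × Bool) ℝ) = 0 := fun c => pderiv_var_eq hv
  simp only [oriPoly, xvar, yvar, map_sub, pderiv_mul, h1, h2, h3]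
  simp

variable [DecidableEq V]

/-- The special vertices. -/
def spec (slab : Fin L → V) (sep : Fin Δ → Fin N0 → V × V) : Finset V :=
  (Finset.univ.image slab ∪ Finset.univ.image fun tj : Fin Δ × Fin N0 => (sep tj.1 tj.2).1) ∪
    Finset.univ.image fun tj : Fin Δ × Fin N0 => (sep tj.1 tj.2).2

theorem spec_card (slab : Fin L → V) (sep : Fin Δ → Fin N0 → V × V) :
    (spec slab sep).card ≤ 2 * (Δ * N0 + L) := by
  have h1 : (Finset.univ.image slab).card ≤ L := by
    refine Finset.card_image_le.trans ?_
    simp
  have h2 : (Finset.univ.image fun tj : Fin Δ × Fin N0 => (sep tj.1 tj.2).1).card ≤ Δ * N0 := by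
    refine Finset.card_image_le.trans ?_
    simp
  have h3 : (Finset.univ.image fun tj : Fin Δ × Fin N0 => (sep tj.1 tj.2).2).card ≤ Δ * N0 := by
    refine Finset.card_image_le.trans ?_
    simp
  have h4 := Finset.card_union_le (Finset.univ.image slab ∪ Finset.univ.image
    fun tj : Fin Δ × Fin N0 => (sep tj.1 tj.2).1) (Finset.univ.image
    fun tj : Fin Δ × Fin N0 => (sep tj.1 tj.2).2)
  have h5 := Finset.card_union_le (Finset.univ.image slab) (Finset.univ.image
    fun tj : Fin Δ × Fin N0 => (sep tj.1 tj.2).1)
  simp only [spec]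
  omega

variable [Fintype V]

theorem realized_card (slab : Fin L → V) (sep : Fin Δ → Fin N0 → V × V) (hL : 0 < L)
    (S : Finset (V × ((Fin Δ × Fin N0) ⊕ Fin L) → Bool))
    (hS : ∀ p ∈ S, ∃ z : V × Bool → ℝ, ∀ i, p i = true ↔ 0 < eval z (poly slab sep i)) :
    S.card ≤ (6 * (Δ * N0 + L) + 5) ^ (2 * Fintype.card V) *
      (2 * Fintype.card V * (4 * (Δ * N0 + L)) *
        (2 * (Fintype.card V * (Δ * N0 + L)) + 2) + 1) ^ (4 * (Δ * N0 + L)) := by
  set R := Δ * N0 + L with hR
  set n := Fintype.card V with hn
  have hRpos : 0 < R := by omega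
  set W := spec slab sep with hW
  have hWcard : W.card ≤ 2 * R := spec_card slab sep
  have hcardIdx : Fintype.card ((Fin Δ × Fin N0) ⊕ Fin L) = R := by simp [hR]
  let s : V × Bool → ℕ := fun l => if l.1 ∈ W then 1 else 4 * R
  let A : V × Bool → ℕ := fun l =>
    if l.1 ∈ W then 2 * n * (4 * R) * (2 * (n * R) + 2) else 4 * R * (6 * R + 4)
  let d : V × ((Fin Δ × Fin N0) ⊕ Fin L) → V × Bool → ℕ := fun i l =>
    if l.1 ∈ W ∨ l.1 = i.1 then 2 else 0
  let dep : V × Bool → Finset (V × ((Fin Δ × Fin N0) ⊕ Fin L)) := fun l =>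
    if l.1 ∈ W then Finset.univ else Finset.univ.filter fun i => i.1 = l.1
  have hWsep1 : ∀ tj : Fin Δ × Fin N0, (sep tj.1 tj.2).1 ∈ W := by
    intro tj
    simp only [hW, spec, Finset.mem_union, Finset.mem_image, Finset.mem_univ, true_and]
    exact Or.inl (Or.inr ⟨tj, rfl⟩)
  have hWsep2 : ∀ tj : Fin Δ × Fin N0, (sep tj.1 tj.2).2 ∈ W := by
    intro tj
    simp only [hW, spec, Finset.mem_union, Finset.mem_image, Finset.mem_univ, true_and]
    exact Or.inr ⟨tj, rfl⟩
  have hWslab : ∀ j, slab j ∈ W := by
    intro j
    simp only [hW, spec, Finset.mem_union, Finset.mem_image, Finset.mem_univ, true_and]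
    exact Or.inl (Or.inl ⟨j, rfl⟩)
  have hdep : ∀ l i, i ∉ dep l → pderiv l (poly slab sep i) = 0 := by
    intro l i hi
    have hlW : l.1 ∉ W := by
      intro h
      simp only [dep, if_pos h] at hi
      exact hi (Finset.mem_univ _)
    simp only [dep, if_neg hlW, Finset.mem_filter, Finset.mem_univ, true_and] at hi
    rcases i with ⟨v, tj | j⟩
    · simp only [poly]
      apply pderiv_oriPoly_eq
      · exact fun h => hlW (h ▸ hWsep1 tj)
      · exact fun h => hlW (h ▸ hWsep2 tj)
      · exact fun h => hi h.symm
    · simp only [poly, xvar, map_sub]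
      rw [pderiv_var_eq, pderiv_var_eq, sub_zero]
      · exact fun h => hlW (h ▸ hWslab j)
      · exact fun h => hi h.symm
  have hd : ∀ i l, degreeOf l (poly slab sep i) ≤ d i l := by
    intro i l
    by_cases h : l.1 ∈ W ∨ l.1 = i.1
    · simp only [d, if_pos h]
      rcases i with ⟨v, tj | j⟩
      · simp only [poly]
        exact degreeOf_oriPoly_le _ _ _ _
      · simp only [poly]
        exact (degreeOf_sub_var_le _ _ _).trans (by norm_num)
    · simp only [d, if_neg h]
      push Not at h
      rcases i with ⟨v, tj | j⟩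
      · simp only [poly]
        rw [degreeOf_oriPoly_eq]
        · exact fun h' => h.1 (h' ▸ hWsep1 tj)
        · exact fun h' => h.1 (h' ▸ hWsep2 tj)
        · exact h.2
      · simp only [poly, xvar]
        rw [degreeOf_sub_var_eq]
        · exact h.2
        · exact fun h' => h.1 (h' ▸ hWslab j)
  have hsle : ∀ l, s l ≤ 4 * R := by
    intro l
    simp only [s]
    split_ifs <;> omega
  have hfib : ∀ w : V, (Finset.univ.filter
      fun i : V × ((Fin Δ × Fin N0) ⊕ Fin L) => i.1 = w).card = R := by
    intro w
    have : (Finset.univ.filter fun i : V × ((Fin Δ × Fin N0) ⊕ Fin L) => i.1 = w) =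
        ({w} : Finset V) ×ˢ Finset.univ := by
      ext i
      simp only [Finset.mem_filter, Finset.mem_univ, true_and, Finset.mem_product,
        Finset.mem_singleton, and_true]
    rw [this, Finset.card_product, Finset.card_singleton, Finset.card_univ, hcardIdx, one_mul]
  have hA : ∀ l', ∑ l, s l * (∑ i ∈ dep l, d i l' + if l = l' then 2 else 0) ≤ A l' := by
    intro l'
    by_cases hl' : l'.1 ∈ W
    · simp only [A, if_pos hl']
      have hterm : ∀ l, s l * (∑ i ∈ dep l, d i l' + if l = l' then 2 else 0) ≤
          4 * R * (2 * (n * R) + 2) := by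
        intro l
        refine Nat.mul_le_mul (hsle l) (Nat.add_le_add ?_ ?_)
        · have h1 : ∑ i ∈ dep l, d i l' ≤ ∑ _i ∈ dep l, 2 := by
            refine Finset.sum_le_sum fun i _ => ?_
            simp only [d]
            split_ifs <;> omega
          refine h1.trans ?_
          rw [Finset.sum_const, smul_eq_mul, mul_comm]
          refine Nat.mul_le_mul_left _ ((Finset.card_le_univ _).trans ?_)
          rw [Fintype.card_prod, hcardIdx]
        · split_ifs <;> omega
      refine (Finset.sum_le_card_nsmul _ _ _ fun l _ => hterm l).trans ?_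
      rw [Finset.card_univ, Fintype.card_prod, Fintype.card_bool, smul_eq_mul]
      refine le_of_eq ?_
      ring
    · simp only [A, if_neg hl']
      have hterm : ∀ l, s l * (∑ i ∈ dep l, d i l' + if l = l' then 2 else 0) ≤
          (if l.1 ∈ W then 2 * R else 0) + (if l.1 = l'.1 then 4 * R * (2 * R + 2) else 0) := by
        intro l
        by_cases hl : l.1 ∈ W
        · have hne : l.1 ≠ l'.1 := fun h => hl' (h ▸ hl)
          have hne' : l ≠ l' := fun h => hne (h ▸ rfl)
          simp only [s, dep, if_pos hl, if_neg hne, if_neg hne', one_mul, add_zero]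
          have h1 : ∑ i : V × ((Fin Δ × Fin N0) ⊕ Fin L), d i l' =
              ∑ i ∈ Finset.univ.filter
                (fun i : V × ((Fin Δ × Fin N0) ⊕ Fin L) => i.1 = l'.1), 2 := by
            rw [Finset.sum_filter]
            refine Finset.sum_congr rfl fun i _ => ?_
            simp only [d]
            by_cases h : i.1 = l'.1
            · rw [if_pos (Or.inr h.symm), if_pos h]
            · rw [if_neg h, if_neg]
              rintro (h2 | h2)
              · exact hl' h2
              · exact h h2.symm
          rw [h1, Finset.sum_const, hfib, smul_eq_mul, mul_comm]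
        · have hsl : s l = 4 * R := by simp only [s, if_neg hl]
          rw [if_neg hl, zero_add]
          by_cases hne : l.1 = l'.1
          · rw [if_pos hne, hsl]
            refine Nat.mul_le_mul_left _ (Nat.add_le_add ?_ ?_)
            · simp only [dep, if_neg hl]
              have h1 : ∑ i ∈ Finset.univ.filter
                  (fun i : V × ((Fin Δ × Fin N0) ⊕ Fin L) => i.1 = l.1), d i l' ≤
                  ∑ i ∈ Finset.univ.filter
                  (fun i : V × ((Fin Δ × Fin N0) ⊕ Fin L) => i.1 = l.1), 2 := by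
                refine Finset.sum_le_sum fun i _ => ?_
                simp only [d]
                split_ifs <;> omega
              refine h1.trans ?_
              rw [Finset.sum_const, hfib, smul_eq_mul, mul_comm]
            · split_ifs <;> omega
          · have hne' : l ≠ l' := fun h => hne (h ▸ rfl)
            rw [if_neg hne, if_neg hne', add_zero, Nat.le_zero, mul_eq_zero]
            right
            refine Finset.sum_eq_zero fun i hi => ?_
            simp only [dep, if_neg hl, Finset.mem_filter, Finset.mem_univ, true_and] at hi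
            simp only [d]
            rw [if_neg]
            rintro (h2 | h2)
            · exact hl' h2
            · exact hne (by rw [h2, hi])
      refine (Finset.sum_le_sum fun l _ => hterm l).trans ?_
      rw [Finset.sum_add_distrib, ← Finset.sum_filter, ← Finset.sum_filter, Finset.sum_const,
        Finset.sum_const, smul_eq_mul, smul_eq_mul]
      have h1 : (Finset.univ.filter fun l : V × Bool => l.1 ∈ W).card = 2 * W.card := by
        have : (Finset.univ.filter fun l : V × Bool => l.1 ∈ W) = W ×ˢ Finset.univ := by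
          ext l
          simp
        rw [this, Finset.card_product, Finset.card_univ, Fintype.card_bool, mul_comm]
      have h2 : (Finset.univ.filter fun l : V × Bool => l.1 = l'.1).card = 2 := by
        have : (Finset.univ.filter fun l : V × Bool => l.1 = l'.1) =
            ({l'.1} : Finset V) ×ˢ Finset.univ := by
          ext l
          simp only [Finset.mem_filter, Finset.mem_univ, true_and, Finset.mem_product,
            Finset.mem_singleton, and_true]
        rw [this, Finset.card_product, Finset.card_univ, Fintype.card_bool,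
          Finset.card_singleton, one_mul]
      rw [h1, h2]
      have h3 : 2 * W.card * (2 * R) ≤ 2 * (2 * R) * (2 * R) :=
        Nat.mul_le_mul_right _ (Nat.mul_le_mul_left _ hWcard)
      calc 2 * W.card * (2 * R) + 2 * (4 * R * (2 * R + 2))
          ≤ 2 * (2 * R) * (2 * R) + 2 * (4 * R * (2 * R + 2)) := Nat.add_le_add_right h3 _
        _ = 4 * R * (6 * R + 4) := by ring
  have hmain := patterns_card (poly slab sep) dep hdep d hd s A hA S hS
  -- simplify the bound
  set Z := 2 * n * (4 * R) * (2 * (n * R) + 2) + 1 with hZ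
  have hA2 : ∀ l, A l + 1 ≤ s l * ((6 * R + 5) * (if l.1 ∈ W then Z else 1)) := by
    intro l
    by_cases hl : l.1 ∈ W
    · simp only [A, s, if_pos hl, one_mul]
      rw [← hZ]
      exact Nat.le_mul_of_pos_left _ (by omega)
    · simp only [A, s, if_neg hl, mul_one]
      nlinarith
  have hprod : ∏ l, (A l + 1) ≤ (∏ l, s l) *
      ((6 * R + 5) ^ (2 * n) * Z ^ (4 * R)) := by
    refine (Finset.prod_le_prod' fun l _ => hA2 l).trans ?_
    rw [Finset.prod_mul_distrib]
    refine Nat.mul_le_mul_left _ ?_
    rw [Finset.prod_mul_distrib]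
    refine Nat.mul_le_mul ?_ ?_
    · rw [Finset.prod_const, Finset.card_univ, Fintype.card_prod, Fintype.card_bool, mul_comm n 2]
    · rw [← Finset.prod_filter, Finset.prod_const]
      have h1 : (Finset.univ.filter fun l : V × Bool => l.1 ∈ W).card = 2 * W.card := by
        have : (Finset.univ.filter fun l : V × Bool => l.1 ∈ W) = W ×ˢ Finset.univ := by
          ext l
          simp
        rw [this, Finset.card_product, Finset.card_univ, Fintype.card_bool, mul_comm]
      rw [h1]
      exact Nat.pow_le_pow_right (by omega) (by omega)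
  have hspos : 0 < ∏ l, s l := by
    refine Finset.prod_pos fun l _ => ?_
    simp only [s]
    split_ifs <;> omega
  have hfinal := hmain.trans hprod
  rw [mul_comm] at hfinal
  exact Nat.le_of_mul_le_mul_left hfinal hspos

end

end Pool.Agent.Helper67
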