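import Mathlib
import Pool.Agent.Helper67.Hitting
import Pool.Agent.Helper67.Realized

/-!
# Counting tuples of permutations drawn with few noncrossing colour classes
-/

namespace Pool.Agent.Helper67

open MvPolynomial

/-- The perfect matching of `Fin m ⊕ Fin m` given by a permutation. -/
def mateOf {m : ℕ} (π : Equiv.Perm (Fin m)) : Fin m ⊕ Fin m → Fin m ⊕ Fin m
  | Sum.inl i => Sum.inr (π i)
  | Sum.inr j => Sum.inl (π.symm j)

theorem mateOf_injective {m : ℕ} : Function.Injective (mateOf (m := m)) := by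
  intro π π' h
  ext i
  have := congrFun h (Sum.inl i)
  simp only [mateOf, Sum.inr.injEq] at this
  rw [this]

open Classical in
/-- All choices made for a tuple of permutations. -/
structure Pack (m Δ k K L N0 : ℕ) (π : Fin Δ → Equiv.Perm (Fin m)) where
  x : Fin m ⊕ Fin m → ℝ
  y : Fin m ⊕ Fin m → ℝ
  C : Fin Δ → Conf (Fin m ⊕ Fin m) k
  hx : ∀ t, (C t).x = x
  hy : ∀ t, (C t).y = y
  hmate : ∀ t, (C t).mate = mateOf (π t)
  slab : Fin L → Fin m ⊕ Fin m
  hslab : ∀ j, rk x (slab j) = j * K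
  sep : Fin Δ → Fin N0 → Fin m ⊕ Fin m
  hsep : ∀ t v, (C t).off (Finset.univ.image (sep t)) v < K

theorem exists_pack {m Δ k K L N0 : ℕ} (hm : 2 * m = K * L) (hK : 0 < K)
    (hN : (2 * m) * (2 * m - K) ^ N0 < (2 * m) ^ N0) (π : Fin Δ → Equiv.Perm (Fin m))
    (x y : Fin m ⊕ Fin m → ℝ) (hxinj : Function.Injective x)
    (C : Fin Δ → Conf (Fin m ⊕ Fin m) k)
    (hC : ∀ t, (C t).x = x ∧ (C t).y = y ∧ (C t).mate = mateOf (π t)) :
    Nonempty (Pack m Δ k K L N0 π) := by
  have hcard : Fintype.card (Fin m ⊕ Fin m) = 2 * m := by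
    simp
    ring
  obtain ⟨slab, hslab⟩ := exists_slab x hxinj K L (hcard.trans hm) hK
  have hs : ∀ t, ∃ sep : Fin N0 → Fin m ⊕ Fin m, ∀ v,
      (C t).off (Finset.univ.image sep) v < K := by
    intro t
    have := (C t).exists_sep K N0 hK (by rw [hcard]; exact hN)
    obtain ⟨sep, hsep⟩ := this
    refine ⟨sep, fun v => ?_⟩
    convert hsep v
  choose sep hsep using hs
  exact ⟨⟨x, y, C, fun t => (hC t).1, fun t => (hC t).2.1, fun t => (hC t).2.2, slab, hslab, sep,
    fun t v => by convert hsep t v⟩⟩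

/-- Orientation of three points, in terms of coordinates. -/
def ori3 {V : Type*} (x y : V → ℝ) (a b v : V) : ℝ :=
  (x b - x a) * (y v - y a) - (y b - y a) * (x v - x a)

/-- Evaluation point given by coordinates. -/
def zpt {V : Type*} (x y : V → ℝ) : V × Bool → ℝ
  | (v, false) => x v
  | (v, true) => y v

theorem eval_oriPoly {V : Type*} (x y : V → ℝ) (a b v : V) :
    eval (zpt x y) (oriPoly a b v) = ori3 x y a b v := by
  simp [oriPoly, xvar, yvar, zpt, ori3]

namespace Pack

variable {m Δ k K L N0 : ℕ} {π : Fin Δ → Equiv.Perm (Fin m)}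

/-- First part of the code. -/
def code1 (P : Pack m Δ k K L N0 π) :
    (Fin L → Fin m ⊕ Fin m) × (Fin Δ → Fin N0 → (Fin m ⊕ Fin m) × (Fin m ⊕ Fin m)) :=
  (P.slab, fun t j => (P.sep t j, mateOf (π t) (P.sep t j)))

open Classical in
/-- Pattern part of the code. -/
noncomputable def code2 (P : Pack m Δ k K L N0 π) :
    (Fin m ⊕ Fin m) × ((Fin Δ × Fin N0) ⊕ Fin L) → Bool := fun i =>
  decide (0 < eval (zpt P.x P.y) (poly P.code1.1 P.code1.2 i))

open Classical in
/-- Last part of the code. -/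
noncomputable def code3 (P : Pack m Δ k K L N0 π) (hK : 0 < K) :
    (Fin m ⊕ Fin m → Fin K) × (Fin Δ → Fin m ⊕ Fin m → Fin k) ×
      (Fin Δ → Fin m ⊕ Fin m → Bool) × (Fin Δ → Fin m ⊕ Fin m → Fin K) :=
  (fun v => ⟨rk P.x v % K, Nat.mod_lt _ hK⟩, fun t v => (P.C t).col v,
    fun t v => decide (P.x v < P.x (mateOf (π t) v)),
    fun t v => ⟨(P.C t).off (Finset.univ.image (P.sep t)) v, P.hsep t v⟩)

theorem code_inj {π' : Fin Δ → Equiv.Perm (Fin m)} (hK : 0 < K) (hm : 2 * m = K * L)
    (P : Pack m Δ k K L N0 π)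
    (P' : Pack m Δ k K L N0 π') (h1 : P.code1 = P'.code1) (h2 : P.code2 = P'.code2)
    (h3 : P.code3 hK = P'.code3 hK) : π = π' := by
  classical
  have hcard : Fintype.card (Fin m ⊕ Fin m) = 2 * m := by
    simp
    ring
  have hslab : P.slab = P'.slab := congrArg Prod.fst h1
  have hsep : P.sep = P'.sep := by
    funext t j
    exact congrArg Prod.fst (congrFun (congrFun (congrArg Prod.snd h1) t) j)
  have hpatt : ∀ i, 0 < eval (zpt P.x P.y) (poly P.code1.1 P.code1.2 i) ↔
      0 < eval (zpt P'.x P'.y) (poly P'.code1.1 P'.code1.2 i) := by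
    intro i
    have := congrFun h2 i
    simp only [code2] at this
    exact decide_eq_decide.1 this
  have hmod : ∀ v, rk P.x v % K = rk P'.x v % K := by
    intro v
    exact congrArg Fin.val (congrFun (congrArg Prod.fst h3) v)
  have hcol : ∀ t v, (P.C t).col v = (P'.C t).col v := by
    intro t v
    exact congrFun (congrFun (congrArg (fun c => c.2.1) h3) t) v
  have hside : ∀ t v, P.x v < P.x (mateOf (π t) v) ↔ P'.x v < P'.x (mateOf (π' t) v) := by
    intro t v
    have := congrFun (congrFun (congrArg (fun c => c.2.2.1) h3) t) v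
    simp only [code3] at this
    exact decide_eq_decide.1 this
  have hoff : ∀ t v, (P.C t).off (Finset.univ.image (P.sep t)) v =
      (P'.C t).off (Finset.univ.image (P'.sep t)) v := by
    intro t v
    exact congrArg Fin.val (congrFun (congrFun (congrArg (fun c => c.2.2.2) h3) t) v)
  -- the order of abscissas
  have hrk : ∀ v, rk P.x v = rk P'.x v := by
    refine rk_eq_of P.x P'.x K L (hcard.trans hm) hK P.slab P.hslab ?_ ?_ hmod
    · intro j
      rw [hslab]
      exact P'.hslab j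
    · intro j v
      have := hpatt (v, Sum.inr j)
      simp only [poly, code1, xvar, map_sub, eval_X, zpt, sub_pos] at this
      rw [this, hslab]
  have e1 : ∀ u v, P.x u < P.x v ↔ P'.x u < P'.x v := by
    intro u v
    rw [← rk_lt_iff, ← rk_lt_iff, hrk, hrk]
  funext t
  apply mateOf_injective
  have key := Conf.mate_eq (P.C t) (P'.C t) ?_ (hcol t) ?_ (Finset.univ.image (P.sep t)) ?_ ?_
  · rw [P.hmate, P'.hmate] at key
    exact key
  · intro u v
    rw [P.hx, P'.hx]
    exact e1 u v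
  · intro v
    rw [P.hx, P'.hx, P.hmate, P'.hmate]
    exact hside t v
  · intro s hs v
    rw [Finset.mem_image] at hs
    obtain ⟨j, -, rfl⟩ := hs
    have := hpatt (v, Sum.inl (t, j))
    simp only [poly, code1, eval_oriPoly] at this
    simp only [Conf.ori, P.hx, P'.hx, P.hy, P'.hy, P.hmate, P'.hmate]
    rw [← hsep] at this
    exact this
  · intro v
    have := hoff t v
    rw [← hsep] at this
    exact this

end Pack

theorem count_bound (m Δ k K L N0 : ℕ) (hm : 2 * m = K * L) (hK : 0 < K) (hL : 0 < L)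
    (hN : (2 * m) * (2 * m - K) ^ N0 < (2 * m) ^ N0)
    (hconf : ∀ π : Fin Δ → Equiv.Perm (Fin m), ∃ (x y : Fin m ⊕ Fin m → ℝ)
      (C : Fin Δ → Conf (Fin m ⊕ Fin m) k), Function.Injective x ∧
        ∀ t, (C t).x = x ∧ (C t).y = y ∧ (C t).mate = mateOf (π t)) :
    m.factorial ^ Δ ≤
      ((2 * m) ^ L * (((2 * m) * (2 * m)) ^ N0) ^ Δ) *
      ((6 * (Δ * N0 + L) + 5) ^ (2 * (2 * m)) *
        (2 * (2 * m) * (4 * (Δ * N0 + L)) *
          (2 * ((2 * m) * (Δ * N0 + L)) + 2) + 1) ^ (4 * (Δ * N0 + L))) *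
      (K ^ (2 * m) * ((k ^ (2 * m)) ^ Δ * ((2 ^ (2 * m)) ^ Δ * (K ^ (2 * m)) ^ Δ))) := by
  classical
  have hcard : Fintype.card (Fin m ⊕ Fin m) = 2 * m := by
    simp
    ring
  have hpack : ∀ π : Fin Δ → Equiv.Perm (Fin m), Nonempty (Pack m Δ k K L N0 π) := by
    intro π
    obtain ⟨x, y, C, hx, hC⟩ := hconf π
    exact exists_pack hm hK hN π x y hx C hC
  let pk : ∀ π : Fin Δ → Equiv.Perm (Fin m), Pack m Δ k K L N0 π := fun π => (hpack π).some
  let T1 := (Fin L → Fin m ⊕ Fin m) × (Fin Δ → Fin N0 → (Fin m ⊕ Fin m) × (Fin m ⊕ Fin m))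
  let T2 := (Fin m ⊕ Fin m) × ((Fin Δ × Fin N0) ⊕ Fin L) → Bool
  let T3 := (Fin m ⊕ Fin m → Fin K) × (Fin Δ → Fin m ⊕ Fin m → Fin k) ×
      (Fin Δ → Fin m ⊕ Fin m → Bool) × (Fin Δ → Fin m ⊕ Fin m → Fin K)
  let code : (Fin Δ → Equiv.Perm (Fin m)) → (T1 × T2) × T3 := fun π =>
    (((pk π).code1, (pk π).code2), (pk π).code3 hK)
  let Real2 : T1 → Finset T2 := fun a => Finset.univ.filter fun p =>
    ∃ z : (Fin m ⊕ Fin m) × Bool → ℝ, ∀ i, p i = true ↔ 0 < eval z (poly a.1 a.2 i)
  let target : Finset ((T1 × T2) × T3) :=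
    ((Finset.univ : Finset T1).biUnion fun a => ({a} : Finset T1) ×ˢ Real2 a) ×ˢ Finset.univ
  have hmaps : ∀ π ∈ (Finset.univ : Finset (Fin Δ → Equiv.Perm (Fin m))), code π ∈ target := by
    intro π _
    simp only [target, Finset.mem_product, Finset.mem_biUnion, Finset.mem_univ, true_and,
      Finset.mem_singleton, and_true]
    refine ⟨(pk π).code1, rfl, ?_⟩
    simp only [Real2, Finset.mem_filter, Finset.mem_univ, true_and]
    refine ⟨zpt (pk π).x (pk π).y, fun i => ?_⟩
    simp only [code, Pack.code2, decide_eq_true_eq]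
  have hinj : Set.InjOn code (Finset.univ : Finset (Fin Δ → Equiv.Perm (Fin m))) := by
    intro π _ π' _ h
    have h1 : ((pk π).code1, (pk π).code2) = ((pk π').code1, (pk π').code2) := congrArg Prod.fst h
    exact Pack.code_inj hK hm (pk π) (pk π') (congrArg Prod.fst h1) (congrArg Prod.snd h1)
      (congrArg Prod.snd h)
  have h1 := Finset.card_le_card_of_injOn code hmaps hinj
  have hleft : (Finset.univ : Finset (Fin Δ → Equiv.Perm (Fin m))).card = m.factorial ^ Δ := by
    rw [Finset.card_univ, Fintype.card_fun, Fintype.card_perm, Fintype.card_fin, Fintype.card_fin]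
  rw [hleft] at h1
  refine h1.trans ?_
  simp only [target]
  rw [Finset.card_product]
  refine Nat.mul_le_mul ?_ ?_
  · refine Finset.card_biUnion_le.trans ?_
    refine (Finset.sum_le_card_nsmul _ _ _ fun a _ => ?_).trans (b := Fintype.card T1 *
      ((6 * (Δ * N0 + L) + 5) ^ (2 * (2 * m)) *
        (2 * (2 * m) * (4 * (Δ * N0 + L)) *
          (2 * ((2 * m) * (Δ * N0 + L)) + 2) + 1) ^ (4 * (Δ * N0 + L)))) ?_
    · rw [Finset.card_product, Finset.card_singleton, one_mul]
      have := realized_card a.1 a.2 hL (Real2 a) (by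
        intro p hp
        simp only [Real2, Finset.mem_filter, Finset.mem_univ, true_and] at hp
        exact hp)
      rw [hcard] at this
      exact this
    · refine Nat.mul_le_mul_right _ ?_
      simp only [T1, Fintype.card_prod, Fintype.card_fun, Fintype.card_fin, hcard]
      exact le_rfl
  · rw [Finset.card_univ]
    simp only [T3, Fintype.card_prod, Fintype.card_fun, Fintype.card_fin, hcard, Fintype.card_bool]
    exact le_rfl

end Pool.Agent.Helper67
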