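import Mathlib
import Pool.Agent.Helper67.Count

/-!
# The numerical part of the counting argument
-/

namespace Pool.Agent.Helper67

theorem bern (x j : ℕ) : x ^ (j + 1) + (j + 1) * x ^ j ≤ (x + 1) ^ (j + 1) := by
  induction j with
  | zero => simp
  | succ j ih =>
    calc x ^ (j + 1 + 1) + (j + 1 + 1) * x ^ (j + 1)
        ≤ (x + 1) * (x ^ (j + 1) + (j + 1) * x ^ j) := by
          have h1 : (x + 1) * (x ^ (j + 1) + (j + 1) * x ^ j) =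
            x ^ (j + 1 + 1) + (j + 1 + 1) * x ^ (j + 1) + (j + 1) * x ^ j := by ring
          rw [h1]
          exact Nat.le_add_right _ _
      _ ≤ (x + 1) * (x + 1) ^ (j + 1) := Nat.mul_le_mul_left _ ih
      _ = (x + 1) ^ (j + 1 + 1) := by ring

theorem two_mul_pred_pow (L : ℕ) (hL : 0 < L) : 2 * (L - 1) ^ L ≤ L ^ L := by
  obtain ⟨x, rfl⟩ : ∃ x, L = x + 1 := ⟨L - 1, by omega⟩
  have h := bern x x
  have h2 : (x + 1) * x ^ x = x ^ (x + 1) + x ^ x := by ring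
  rw [h2] at h
  have h3 : x + 1 - 1 = x := by omega
  rw [h3]
  omega

theorem hitting_ineq (b e : ℕ) :
    (2 ^ (b + e)) * (2 ^ (b + e) - 2 ^ b) ^ (2 ^ e * (b + e + 1)) <
      (2 ^ (b + e)) ^ (2 ^ e * (b + e + 1)) := by
  set L := 2 ^ e with hL
  have hLpos : 0 < L := by positivity
  have h1 : 2 ^ (b + e) - 2 ^ b = 2 ^ b * (L - 1) := by
    rw [pow_add, Nat.mul_sub, mul_one]
  have h2 : 2 ^ (b + e) = 2 ^ b * L := pow_add _ _ _
  have h3 : 2 ^ (b + e + 1) * (L - 1) ^ (L * (b + e + 1)) ≤ L ^ (L * (b + e + 1)) := by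
    calc 2 ^ (b + e + 1) * (L - 1) ^ (L * (b + e + 1))
        = (2 * (L - 1) ^ L) ^ (b + e + 1) := by rw [mul_pow, pow_mul]
      _ ≤ (L ^ L) ^ (b + e + 1) := Nat.pow_le_pow_left (two_mul_pred_pow L hLpos) _
      _ = L ^ (L * (b + e + 1)) := by rw [pow_mul]
  have h4 : 2 ^ (b + e) * (L - 1) ^ (L * (b + e + 1)) < L ^ (L * (b + e + 1)) := by
    rcases Nat.eq_zero_or_pos ((L - 1) ^ (L * (b + e + 1))) with h | h
    · rw [h, mul_zero]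
      positivity
    · refine lt_of_lt_of_le ?_ h3
      rw [pow_succ 2 (b + e)]
      have : 0 < 2 ^ (b + e) * (L - 1) ^ (L * (b + e + 1)) := by positivity
      nlinarith
  have h5 : (2 ^ (b + e) - 2 ^ b) ^ (L * (b + e + 1)) =
      (2 ^ b) ^ (L * (b + e + 1)) * (L - 1) ^ (L * (b + e + 1)) := by rw [h1, mul_pow]
  have h6 : (2 ^ (b + e)) ^ (L * (b + e + 1)) =
      (2 ^ b) ^ (L * (b + e + 1)) * L ^ (L * (b + e + 1)) := by
    rw [h2, mul_pow]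
  rw [h5, h6]
  calc 2 ^ (b + e) * ((2 ^ b) ^ (L * (b + e + 1)) * (L - 1) ^ (L * (b + e + 1)))
      = (2 ^ b) ^ (L * (b + e + 1)) * (2 ^ (b + e) * (L - 1) ^ (L * (b + e + 1))) := by ring
    _ < (2 ^ b) ^ (L * (b + e + 1)) * L ^ (L * (b + e + 1)) :=
        Nat.mul_lt_mul_of_pos_left h4 (by positivity)

theorem pow_self_le_factorial (m : ℕ) : m ^ m ≤ m.factorial * 4 ^ m := by
  have h1 := Real.pow_div_factorial_le_exp (m : ℝ) (Nat.cast_nonneg m) m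
  have h2 : Real.exp (m : ℝ) ≤ 4 ^ m := by
    have h3 : Real.exp 1 ≤ 4 := by
      have := Real.exp_one_lt_d9
      linarith
    calc Real.exp (m : ℝ) = (Real.exp 1) ^ m := by rw [← Real.exp_nat_mul, mul_one]
      _ ≤ 4 ^ m := pow_le_pow_left₀ (Real.exp_pos _).le h3 m
  have h4 : (0 : ℝ) < m.factorial := by exact_mod_cast m.factorial_pos
  have h5 : ((m : ℝ)) ^ m ≤ m.factorial * 4 ^ m := by
    have := h1.trans h2
    rw [div_le_iff₀ h4] at this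
    linarith
  exact_mod_cast h5

theorem factorial_lower (c : ℕ) (hc : 2 ≤ c) : 2 ^ ((c - 2) * 2 ^ c) ≤ (2 ^ c).factorial := by
  have h1 := pow_self_le_factorial (2 ^ c)
  have h2 : (2 ^ c) ^ (2 ^ c) = 2 ^ ((c - 2) * 2 ^ c) * 4 ^ (2 ^ c) := by
    have : (4 : ℕ) = 2 ^ 2 := by norm_num
    rw [this, ← pow_mul, ← pow_mul, ← pow_add]
    congr 1
    have : c = (c - 2) + 2 := by omega
    nth_rw 1 [this]
    ring
  rw [h2] at h1
  exact Nat.le_of_mul_le_mul_right h1 (by positivity)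

/-- The final inequality between exponents. -/
theorem final_ineq (Δ a b e ℓ κ k m : ℕ) (hab : a = b + e) (hm_def : m = 2 ^ (a - 1))
    (hΔ : 1 ≤ Δ) (ha : 3 ≤ a)
    (hℓ : 11 * (Δ * (a + 1) + 1) ≤ 2 ^ ℓ)
    (hE : a + 2 * a * Δ * (a + 1) +
      4 * (Δ * (a + 1) + 1) * (6 + 4 * a + 2 * ℓ) ≤ 2 ^ b)
    (hk : k ≤ 2 ^ κ)
    (hconf : ∀ π : Fin Δ → Equiv.Perm (Fin m),
      ∃ (x y : Fin m ⊕ Fin m → ℝ)
      (C : Fin Δ → Conf (Fin m ⊕ Fin m) k), Function.Injective x ∧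
        ∀ t, (C t).x = x ∧ (C t).y = y ∧ (C t).mate = mateOf (π t)) :
    Δ * (a - 3) ≤ 2 * (1 + 2 * (ℓ + e) + b + κ * Δ + Δ + b * Δ) := by
  obtain ⟨L, hL_def⟩ : ∃ L, L = 2 ^ e := ⟨_, rfl⟩
  obtain ⟨N0, hN0_def⟩ : ∃ N0, N0 = L * (a + 1) := ⟨_, rfl⟩
  obtain ⟨R, hR_def⟩ : ∃ R, R = Δ * N0 + L := ⟨_, rfl⟩
  have h2m : 2 * m = 2 ^ a := by
    rw [hm_def, ← pow_succ']
    congr 1
    omega
  have hKL : 2 * m = 2 ^ b * L := by rw [h2m, hab, hL_def, pow_add]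
  have hLpos : 0 < L := by rw [hL_def]; positivity
  have hhit := hitting_ineq b e
  rw [← hab, ← hL_def, ← hN0_def] at hhit
  have hcount := count_bound m Δ k (2 ^ b) L N0 hKL (by positivity) hLpos
    (by rw [h2m]; exact hhit) hconf
  rw [← hR_def, h2m] at hcount
  have hRL : R = L * (Δ * (a + 1) + 1) := by rw [hR_def, hN0_def]; ring
  have hRpos : 1 ≤ R := by
    rw [hRL]
    exact Nat.mul_pos hLpos (by omega)
  -- bound `6 R + 5`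
  have h6R : 6 * R + 5 ≤ 2 ^ (ℓ + e) := by
    calc 6 * R + 5 ≤ 11 * R := by omega
      _ = L * (11 * (Δ * (a + 1) + 1)) := by rw [hRL]; ring
      _ ≤ L * 2 ^ ℓ := Nat.mul_le_mul_left _ hℓ
      _ = 2 ^ (ℓ + e) := by rw [hL_def, pow_add, mul_comm]
  have hR2 : R ≤ 2 ^ (ℓ + a) := by
    calc R ≤ 6 * R + 5 := by omega
      _ ≤ 2 ^ (ℓ + e) := h6R
      _ ≤ 2 ^ (ℓ + a) := Nat.pow_le_pow_right (by norm_num) (by omega)
  have hn1 : 1 ≤ 2 ^ a := Nat.one_le_two_pow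
  obtain ⟨n, hn⟩ : ∃ n, n = 2 ^ a := ⟨_, rfl⟩
  rw [← hn] at hcount h2m hn1
  have hZ : 2 * n * (4 * R) * (2 * (n * R) + 2) + 1 ≤ 2 ^ (6 + 4 * a + 2 * ℓ) := by
    have h1 : 1 ≤ n * R := Nat.mul_pos hn1 hRpos
    have h2 : 2 * n * (4 * R) * (2 * (n * R) + 2) + 1 ≤ 33 * (n * R) ^ 2 := by
      nlinarith
    have h3 : n * R ≤ 2 ^ (2 * a + ℓ) := by
      calc n * R ≤ 2 ^ a * 2 ^ (ℓ + a) := by rw [hn]; exact Nat.mul_le_mul_left _ hR2
        _ = 2 ^ (2 * a + ℓ) := by rw [← pow_add]; congr 1; ring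
    calc 2 * n * (4 * R) * (2 * (n * R) + 2) + 1 ≤ 33 * (n * R) ^ 2 := h2
      _ ≤ 2 ^ 6 * (2 ^ (2 * a + ℓ)) ^ 2 :=
          Nat.mul_le_mul (by norm_num) (Nat.pow_le_pow_left h3 2)
      _ = 2 ^ (6 + 4 * a + 2 * ℓ) := by rw [← pow_mul, ← pow_add]; congr 1; ring
  -- the upper bound as a power of two
  have hT1 : n ^ L * ((n * n) ^ N0) ^ Δ = 2 ^ (a * L + 2 * a * N0 * Δ) := by
    rw [hn, ← pow_add, ← pow_mul, ← pow_mul, ← pow_mul, ← pow_add]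
    congr 1
    ring
  have hT2 : (6 * R + 5) ^ (2 * n) *
      (2 * n * (4 * R) * (2 * (n * R) + 2) + 1) ^ (4 * R) ≤
      2 ^ ((ℓ + e) * (2 * n) + (6 + 4 * a + 2 * ℓ) * (4 * R)) := by
    rw [pow_add 2 ((ℓ + e) * (2 * n)), pow_mul 2 (ℓ + e), pow_mul 2 (6 + 4 * a + 2 * ℓ)]
    exact Nat.mul_le_mul (Nat.pow_le_pow_left h6R _) (Nat.pow_le_pow_left hZ _)
  have hT3 : (2 ^ b) ^ n * ((k ^ n) ^ Δ * ((2 ^ n) ^ Δ * ((2 ^ b) ^ n) ^ Δ)) ≤
      2 ^ (b * n + (κ * n * Δ + (n * Δ + b * n * Δ))) := by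
    have h1 : (k ^ n) ^ Δ ≤ 2 ^ (κ * n * Δ) := by
      rw [pow_mul, pow_mul]
      exact Nat.pow_le_pow_left (Nat.pow_le_pow_left hk _) _
    have h2 : (2 ^ b) ^ n = 2 ^ (b * n) := (pow_mul _ _ _).symm
    have h3 : ((2 ^ b) ^ n) ^ Δ = 2 ^ (b * n * Δ) := by rw [h2, ← pow_mul]
    have h4 : (2 ^ n) ^ Δ = 2 ^ (n * Δ) := (pow_mul _ _ _).symm
    rw [h3, h4, h2, pow_add 2 (b * n), pow_add 2 (κ * n * Δ), pow_add 2 (n * Δ)]
    exact Nat.mul_le_mul_left _ (Nat.mul_le_mul h1 le_rfl)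
  have hlow : 2 ^ ((a - 3) * m * Δ) ≤ m.factorial ^ Δ := by
    rw [pow_mul]
    refine Nat.pow_le_pow_left ?_ _
    have := factorial_lower (a - 1) (by omega)
    have h1 : a - 1 - 2 = a - 3 := by omega
    rw [h1, ← hm_def] at this
    exact this
  have hall : 2 ^ ((a - 3) * m * Δ) ≤ 2 ^ ((a * L + 2 * a * N0 * Δ) +
      ((ℓ + e) * (2 * n) + (6 + 4 * a + 2 * ℓ) * (4 * R)) +
      (b * n + (κ * n * Δ + (n * Δ + b * n * Δ)))) := by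
    refine (hlow.trans hcount).trans ?_
    rw [pow_add 2 ((a * L + 2 * a * N0 * Δ) + ((ℓ + e) * (2 * n) + (6 + 4 * a + 2 * ℓ) * (4 * R))),
      pow_add 2 (a * L + 2 * a * N0 * Δ)]
    exact Nat.mul_le_mul (Nat.mul_le_mul hT1.le hT2) hT3
  have hexp := (Nat.pow_le_pow_iff_right (by norm_num)).1 hall
  -- divide by `n`
  have hsmall : (a * L + 2 * a * N0 * Δ) + (6 + 4 * a + 2 * ℓ) * (4 * R) ≤ n := by
    calc (a * L + 2 * a * N0 * Δ) + (6 + 4 * a + 2 * ℓ) * (4 * R)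
        = L * (a + 2 * a * Δ * (a + 1) + 4 * (Δ * (a + 1) + 1) * (6 + 4 * a + 2 * ℓ)) := by
          rw [hRL, hN0_def]
          ring
      _ ≤ L * 2 ^ b := Nat.mul_le_mul_left _ hE
      _ = n := by rw [mul_comm, ← hKL, h2m]
  have hX : n * (Δ * (a - 3)) ≤
      n * (2 * (1 + 2 * (ℓ + e) + b + κ * Δ + Δ + b * Δ)) := by
    have h1 : n * (Δ * (a - 3)) = 2 * ((a - 3) * m * Δ) := by rw [← h2m]; ring
    rw [h1]
    calc 2 * ((a - 3) * m * Δ) ≤ 2 * ((a * L + 2 * a * N0 * Δ) +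
      ((ℓ + e) * (2 * n) + (6 + 4 * a + 2 * ℓ) * (4 * R)) +
      (b * n + (κ * n * Δ + (n * Δ + b * n * Δ)))) := Nat.mul_le_mul_left _ hexp
      _ = 2 * (((a * L + 2 * a * N0 * Δ) + (6 + 4 * a + 2 * ℓ) * (4 * R)) +
        n * (2 * (ℓ + e) + b + κ * Δ + Δ + b * Δ)) := by ring
      _ ≤ 2 * (n + n * (2 * (ℓ + e) + b + κ * Δ + Δ + b * Δ)) :=
          Nat.mul_le_mul_left _ (Nat.add_le_add_right hsmall _)
      _ = n * (2 * (1 + 2 * (ℓ + e) + b + κ * Δ + Δ + b * Δ)) := by ring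
  exact Nat.le_of_mul_le_mul_left hX hn1

end Pool.Agent.Helper67
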